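import Pool.Agent.CFMC.Counter

set_option linter.unusedSimpArgs false

namespace Pool.Agent.CFMC

open Function

/-- Clock programs. -/
inductive Prog : Type
  | skip : Prog
  | step (q r d e : ℕ) : Prog
  | seq (P Q : Prog) : Prog
  | alt (P Q : Prog) : Prog
  | star (P : Prog) : Prog

/-- Input/output relation of a clock program. -/
def Rel : Prog → ℕ → ℕ → Prop
  | .skip, u, v => v = u
  | .step q r d e, u, v => ∃ k, u = q * k + r ∧ v = u + 1 + (d * k + e)
  | .seq P Q, u, v => ∃ w, Rel P u w ∧ Rel Q w v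
  | .alt P Q, u, v => Rel P u v ∨ Rel Q u v
  | .star P, u, v => Relation.ReflTransGen (Rel P) u v

/-- The `i`-th odd prime. -/
noncomputable def pr (i : ℕ) : ℕ := Nat.nth Nat.Prime (i + 1)

theorem pr_prime (i : ℕ) : (pr i).Prime := Nat.prime_nth_prime _

theorem pr_inj {i j : ℕ} : pr i = pr j ↔ i = j := by
  unfold pr
  rw [Nat.nth_injective Nat.infinite_setOfPred_prime |>.eq_iff]
  omega

theorem pr_ne_two (i : ℕ) : pr i ≠ 2 := by
  unfold pr
  rw [← Nat.nth_prime_zero_eq_two]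
  intro h
  have := Nat.nth_injective Nat.infinite_setOfPred_prime h
  omega

theorem three_le_pr (i : ℕ) : 3 ≤ pr i := by
  have h1 := (pr_prime i).two_le
  have h2 := pr_ne_two i
  omega

/-- Registers encoded by a number. -/
noncomputable def st (u : ℕ) : ℕ → ℕ := fun i => u.factorization (pr i)

theorem st_mul_pr (i : ℕ) {u : ℕ} (hu : u ≠ 0) :
    st (pr i * u) = update (st u) i (st u i + 1) := by
  funext j
  unfold st
  rw [Nat.factorization_mul (pr_prime i).ne_zero hu, (pr_prime i).factorization]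
  by_cases hj : j = i
  · subst hj
    simp
    omega
  · have : pr i ≠ pr j := fun h => hj (pr_inj.1 h).symm
    simp [update_apply, hj, Finsupp.single_apply, this]

theorem st_mul_two_pow (N : ℕ) {u : ℕ} (hu : u ≠ 0) : st (2 ^ N * u) = st u := by
  funext j
  unfold st
  rw [Nat.factorization_mul (by positivity) hu, Nat.Prime.factorization_pow Nat.prime_two]
  have : 2 ≠ pr j := (pr_ne_two j).symm
  simp [Finsupp.single_apply, this]

theorem st_mul_two {u : ℕ} (hu : u ≠ 0) : st (2 * u) = st u := by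
  simpa using st_mul_two_pow 1 hu

theorem pr_dvd_iff (i : ℕ) {u : ℕ} (hu : u ≠ 0) : pr i ∣ u ↔ st u i ≠ 0 := by
  unfold st
  rw [(pr_prime i).dvd_iff_one_le_factorization hu]
  omega

theorem st_three_pow (n : ℕ) : st (pr 0 ^ n) = update (fun _ => 0) 0 n := by
  induction n with
  | zero => funext j; by_cases hj : j = 0 <;> simp [st, hj]
  | succ n ih =>
    rw [pow_succ, mul_comm, st_mul_pr 0 (pow_ne_zero _ (pr_prime 0).ne_zero), ih]
    simp

/-- Zero test part. -/
def ztp (p : ℕ) : ℕ → Prog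
  | 0 => .step p 1 p 0
  | n + 1 => .alt (ztp p n) (.step p (n + 2) p (n + 1))

theorem rel_ztp (p n u v : ℕ) : Rel (ztp p n) u v ↔
    ∃ ρ k, 1 ≤ ρ ∧ ρ ≤ n + 1 ∧ u = p * k + ρ ∧ v = 2 * u := by
  induction n with
  | zero =>
    constructor
    · rintro ⟨k, h1, h2⟩
      exact ⟨1, k, le_rfl, le_rfl, h1, by omega⟩
    · rintro ⟨ρ, k, h1, h2, h3, h4⟩
      have : ρ = 1 := by omega
      subst this
      exact ⟨k, h3, by omega⟩
  | succ n ih =>
    constructor
    · rintro (h | h)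
      · obtain ⟨ρ, k, h1, h2, h3, h4⟩ := ih.1 h
        exact ⟨ρ, k, h1, by omega, h3, h4⟩
      · obtain ⟨k, h1, h2⟩ := h
        exact ⟨n + 2, k, by omega, by omega, h1, by omega⟩
    · rintro ⟨ρ, k, h1, h2, h3, h4⟩
      by_cases hρ : ρ ≤ n + 1
      · exact Or.inl (ih.2 ⟨ρ, k, h1, hρ, h3, h4⟩)
      · have : ρ = n + 2 := by omega
        subst this
        exact Or.inr ⟨k, h3, by omega⟩

theorem rel_zt (p u v : ℕ) (hp : 3 ≤ p) : Rel (ztp p (p - 2)) u v ↔ ¬ p ∣ u ∧ v = 2 * u := by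
  rw [rel_ztp]
  constructor
  · rintro ⟨ρ, k, h1, h2, h3, h4⟩
    refine ⟨?_, h4⟩
    intro h
    have h5 : p ∣ ρ := by
      rw [h3] at h
      exact (Nat.dvd_add_right (Dvd.intro k rfl)).1 h
    have := Nat.le_of_dvd (by omega) h5
    omega
  · rintro ⟨h1, h2⟩
    have h3 : u % p ≠ 0 := fun h => h1 (Nat.dvd_of_mod_eq_zero h)
    have h4 : u % p < p := Nat.mod_lt _ (by omega)
    exact ⟨u % p, u / p, by omega, by omega, (Nat.div_add_mod u p).symm, h2⟩

/-- Translation of register programs to clock programs. -/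
noncomputable def tr : RProg → Prog
  | .skip => .skip
  | .inc i => .step 1 1 (pr i - 1) (pr i - 2)
  | .dec i => .step (pr i) (pr i) (2 ^ pr i - pr i) (2 ^ pr i - pr i - 1)
  | .zt i => ztp (pr i) (pr i - 2)
  | .seq P Q => .seq (tr P) (tr Q)
  | .star P => .star (tr P)

theorem rel_inc (i u v : ℕ) : Rel (tr (.inc i)) u v ↔ u ≠ 0 ∧ v = pr i * u := by
  have hp := three_le_pr i
  obtain ⟨p, hp'⟩ : ∃ p, pr i = p + 2 := ⟨pr i - 2, by omega⟩
  simp only [tr, Rel, hp']
  constructor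
  · rintro ⟨k, rfl, rfl⟩
    refine ⟨by omega, ?_⟩
    have e1 : p + 2 - 1 = p + 1 := by omega
    have e2 : p + 2 - 2 = p := by omega
    rw [e1, e2]; ring
  · rintro ⟨h1, rfl⟩
    obtain ⟨k, rfl⟩ : ∃ k, u = k + 1 := ⟨u - 1, by omega⟩
    refine ⟨k, by ring, ?_⟩
    have e1 : p + 2 - 1 = p + 1 := by omega
    have e2 : p + 2 - 2 = p := by omega
    rw [e1, e2]; ring

theorem rel_dec (i u v : ℕ) : Rel (tr (.dec i)) u v ↔
    u ≠ 0 ∧ ∃ w, u = pr i * w ∧ v = 2 ^ pr i * w := by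
  have hp := three_le_pr i
  have hN : pr i < 2 ^ pr i := Nat.lt_two_pow_self
  obtain ⟨N, hN'⟩ : ∃ N, 2 ^ pr i = pr i + N + 1 := ⟨2 ^ pr i - pr i - 1, by omega⟩
  simp only [tr, Rel]
  rw [hN']
  have e1 : pr i + N + 1 - pr i = N + 1 := by omega
  have e2 : N + 1 - 1 = N := by omega
  rw [e1, e2]
  constructor
  · rintro ⟨k, rfl, rfl⟩
    refine ⟨by omega, k + 1, by ring, by ring⟩
  · rintro ⟨h1, w, rfl, rfl⟩
    obtain ⟨k, rfl⟩ : ∃ k, w = k + 1 := ⟨w - 1, by
      have : w ≠ 0 := by rintro rfl; simp at h1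
      omega⟩
    exact ⟨k, by ring, by ring⟩

theorem tr_sound (P : RProg) : ∀ u v, u ≠ 0 → Rel (tr P) u v → v ≠ 0 ∧ Sem P (st u) (st v) := by
  induction P with
  | skip =>
    intro u v hu h
    obtain rfl : v = u := h
    exact ⟨hu, rfl⟩
  | inc i =>
    intro u v hu h
    rw [rel_inc] at h
    obtain ⟨_, rfl⟩ := h
    exact ⟨mul_ne_zero (pr_prime i).ne_zero hu, st_mul_pr i hu⟩
  | dec i =>
    intro u v hu h
    rw [rel_dec] at h
    obtain ⟨_, w, rfl, rfl⟩ := h
    have hw : w ≠ 0 := by rintro rfl; simp at hu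
    refine ⟨mul_ne_zero (by positivity) hw, ?_, ?_⟩
    · rw [st_mul_pr i hw]; simp
    · rw [st_mul_pr i hw, st_mul_two_pow _ hw]
      simp
  | zt i =>
    intro u v hu h
    rw [tr, rel_zt _ _ _ (three_le_pr i)] at h
    obtain ⟨h1, rfl⟩ := h
    rw [pr_dvd_iff i hu] at h1
    exact ⟨by omega, not_not.1 h1, st_mul_two hu⟩
  | seq P Q ihP ihQ =>
    intro u v hu h
    obtain ⟨w, h1, h2⟩ := h
    obtain ⟨h3, h4⟩ := ihP u w hu h1
    obtain ⟨h5, h6⟩ := ihQ w v h3 h2
    exact ⟨h5, _, h4, h6⟩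
  | star P ih =>
    intro u v hu h
    change Relation.ReflTransGen _ _ _ at h
    induction h with
    | refl => exact ⟨hu, .refl⟩
    | tail _ h2 ih2 =>
      obtain ⟨h3, h4⟩ := ih2
      obtain ⟨h5, h6⟩ := ih _ _ h3 h2
      exact ⟨h5, .tail h4 h6⟩

theorem tr_complete (P : RProg) : ∀ u σ, u ≠ 0 → Sem P (st u) σ →
    ∃ v, v ≠ 0 ∧ Rel (tr P) u v ∧ st v = σ := by
  induction P with
  | skip =>
    intro u σ hu h
    obtain rfl : σ = st u := h
    exact ⟨u, hu, rfl, rfl⟩
  | inc i =>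
    intro u σ hu h
    obtain rfl : σ = _ := h
    exact ⟨pr i * u, mul_ne_zero (pr_prime i).ne_zero hu, (rel_inc _ _ _).2 ⟨hu, rfl⟩,
      st_mul_pr i hu⟩
  | dec i =>
    intro u σ hu h
    obtain ⟨h1, rfl⟩ := h
    rw [← pr_dvd_iff i hu] at h1
    obtain ⟨w, rfl⟩ := h1
    have hw : w ≠ 0 := by rintro rfl; simp at hu
    refine ⟨2 ^ pr i * w, mul_ne_zero (by positivity) hw, (rel_dec _ _ _).2 ⟨hu, w, rfl, rfl⟩, ?_⟩
    rw [st_mul_pr i hw, st_mul_two_pow _ hw]
    simp
  | zt i =>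
    intro u σ hu h
    obtain ⟨h1, rfl⟩ := h
    refine ⟨2 * u, by omega, ?_, st_mul_two hu⟩
    rw [tr, rel_zt _ _ _ (three_le_pr i), pr_dvd_iff i hu]
    exact ⟨not_not.2 h1, rfl⟩
  | seq P Q ihP ihQ =>
    intro u σ hu h
    obtain ⟨ρ, h1, h2⟩ := h
    obtain ⟨v, h3, h4, rfl⟩ := ihP u ρ hu h1
    obtain ⟨w, h5, h6, rfl⟩ := ihQ v σ h3 h2
    exact ⟨w, h5, ⟨v, h4, h6⟩, rfl⟩
  | star P ih =>
    intro u σ hu h
    change Relation.ReflTransGen _ _ _ at h
    induction h with
    | refl => exact ⟨u, hu, .refl, rfl⟩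
    | tail _ h2 ih2 =>
      obtain ⟨v, h3, h4, rfl⟩ := ih2
      obtain ⟨w, h5, h6, rfl⟩ := ih v _ h3 h2
      exact ⟨w, h5, .tail h4 h6, rfl⟩

/-- Undecidable family: clock program `tr M` started at `3 ^ n`. -/
theorem exists_prog (f : ℕ → ℕ → ℕ) (hf : Primrec₂ f) :
    ∃ M : Prog, ∀ n, (∃ v, Rel M (pr 0 ^ n) v) ↔ ∃ k, f n k = 0 := by
  obtain ⟨M, hM⟩ := exists_search f hf
  refine ⟨tr M, fun n => ?_⟩
  have h0 : pr 0 ^ n ≠ 0 := pow_ne_zero _ (pr_prime 0).ne_zero
  have h1 := hM (st (pr 0 ^ n)) (by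
    intro j hj
    rw [st_three_pow]
    have : j ≠ 0 := by omega
    simp [update_apply, this])
  have h2 : st (pr 0 ^ n) 0 = n := by rw [st_three_pow]; simp
  rw [h2] at h1
  rw [← h1]
  constructor
  · rintro ⟨v, hv⟩
    exact ⟨_, (tr_sound M _ _ h0 hv).2⟩
  · rintro ⟨τ, hτ⟩
    obtain ⟨v, _, hv, _⟩ := tr_complete M _ _ h0 hτ
    exact ⟨v, hv⟩

/-- Sequences of block lengths produced by a clock program. -/
inductive Der : Prog → List ℕ → Prop
  | skip : Der .skip []
  | step (q r d e k : ℕ) (js : List ℕ) (h : js.length = d * k + e) :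
      Der (.step q r d e) ((q * k + r) :: js)
  | seq {P Q : Prog} {js js' : List ℕ} : Der P js → Der Q js' → Der (.seq P Q) (js ++ js')
  | altl {P Q : Prog} {js : List ℕ} : Der P js → Der (.alt P Q) js
  | altr {P Q : Prog} {js : List ℕ} : Der Q js → Der (.alt P Q) js
  | star_nil {P : Prog} : Der (.star P) []
  | star_cons {P : Prog} {js js' : List ℕ} : Der P js → Der (.star P) js' →
      Der (.star P) (js ++ js')

theorem Der.sound {P : Prog} {js : List ℕ} (h : Der P js) :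
    ∀ u, js = List.range' u js.length → Rel P u (u + js.length) := by
  induction h with
  | skip => intro u _; exact rfl
  | step q r d e k js h =>
    intro u hu
    simp only [List.length_cons, List.range'_succ, List.cons.injEq] at hu
    refine ⟨k, hu.1.symm, ?_⟩
    simp only [List.length_cons, h]; omega
  | @seq P Q js js' _ _ ih1 ih2 =>
    intro u hu
    rw [List.length_append, List.range'_append_1.symm] at hu
    have := List.append_inj hu (by simp)
    refine ⟨u + js.length, ih1 u this.1, ?_⟩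
    rw [List.length_append, ← add_assoc]
    exact ih2 _ this.2
  | altl _ ih => intro u hu; exact Or.inl (ih u hu)
  | altr _ ih => intro u hu; exact Or.inr (ih u hu)
  | star_nil => intro u _; exact .refl
  | @star_cons P js js' _ _ ih1 ih2 =>
    intro u hu
    rw [List.length_append, List.range'_append_1.symm] at hu
    have := List.append_inj hu (by simp)
    refine Relation.ReflTransGen.head (ih1 u this.1) ?_
    rw [List.length_append, ← add_assoc]
    exact ih2 _ this.2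

theorem Der.complete (P : Prog) : ∀ u v, Rel P u v → ∃ m, v = u + m ∧ Der P (List.range' u m) := by
  induction P with
  | skip =>
    intro u v h
    obtain rfl : v = u := h
    exact ⟨0, rfl, Der.skip⟩
  | step q r d e =>
    intro u v h
    obtain ⟨k, rfl, rfl⟩ := h
    refine ⟨d * k + e + 1, by ring, ?_⟩
    rw [List.range'_succ]
    exact Der.step q r d e k _ (by simp)
  | seq P Q ihP ihQ =>
    intro u v h
    obtain ⟨w, h1, h2⟩ := h
    obtain ⟨m, rfl, h3⟩ := ihP _ _ h1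
    obtain ⟨m', rfl, h4⟩ := ihQ _ _ h2
    refine ⟨m + m', by ring, ?_⟩
    rw [← List.range'_append_1]
    exact Der.seq h3 h4
  | alt P Q ihP ihQ =>
    intro u v h
    rcases h with h | h
    · obtain ⟨m, h1, h2⟩ := ihP _ _ h
      exact ⟨m, h1, .altl h2⟩
    · obtain ⟨m, h1, h2⟩ := ihQ _ _ h
      exact ⟨m, h1, .altr h2⟩
  | star P ih =>
    intro u v h
    change Relation.ReflTransGen _ _ _ at h
    induction h using Relation.ReflTransGen.head_induction_on with
    | refl => exact ⟨0, rfl, .star_nil⟩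
    | head h1 _ ih2 =>
      obtain ⟨m, rfl, h3⟩ := ih _ _ h1
      obtain ⟨m', rfl, h4⟩ := ih2
      refine ⟨m + m', by ring, ?_⟩
      rw [← List.range'_append_1]
      exact Der.star_cons h3 h4

end Pool.Agent.CFMC
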