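import Mathlib

set_option linter.unusedSimpArgs false

namespace Pool.Agent.CFMC

open Function

/-- Register programs over registers indexed by natural numbers. -/
inductive RProg : Type
  | skip : RProg
  | inc (i : ℕ) : RProg
  | dec (i : ℕ) : RProg
  | zt (i : ℕ) : RProg
  | seq (P Q : RProg) : RProg
  | star (P : RProg) : RProg

/-- Input/output relation of a register program. -/
def Sem : RProg → (ℕ → ℕ) → (ℕ → ℕ) → Prop
  | .skip, σ, τ => τ = σ
  | .inc i, σ, τ => τ = update σ i (σ i + 1)
  | .dec i, σ, τ => σ i ≠ 0 ∧ τ = update σ i (σ i - 1)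
  | .zt i, σ, τ => σ i = 0 ∧ τ = σ
  | .seq P Q, σ, τ => ∃ ρ, Sem P σ ρ ∧ Sem Q ρ τ
  | .star P, σ, τ => Relation.ReflTransGen (Sem P) σ τ

/-- From `σ` the program has exactly one outcome `σ'`. -/
def Comp (P : RProg) (σ σ' : ℕ → ℕ) : Prop := ∀ τ, Sem P σ τ ↔ τ = σ'

theorem Comp.skip (σ : ℕ → ℕ) : Comp .skip σ σ := fun _ => Iff.rfl

theorem Comp.inc (i : ℕ) (σ : ℕ → ℕ) : Comp (.inc i) σ (update σ i (σ i + 1)) := fun _ => Iff.rfl

theorem Comp.seq {P Q : RProg} {σ σ' σ'' : ℕ → ℕ} (h1 : Comp P σ σ') (h2 : Comp Q σ' σ'') :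
    Comp (.seq P Q) σ σ'' := by
  intro τ
  constructor
  · rintro ⟨ρ, h, h'⟩
    rw [h1 ρ] at h
    subst h
    exact (h2 τ).1 h'
  · intro h
    exact ⟨σ', (h1 σ').2 rfl, (h2 τ).2 h⟩

/-- For loop. -/
def loop (i : ℕ) (B : RProg) : RProg := .seq (.star (.seq (.dec i) B)) (.zt i)

theorem Comp.loop (i : ℕ) (B : RProg) : ∀ (n : ℕ) (s : ℕ → (ℕ → ℕ)),
    (∀ k ≤ n, s k i = n - k) →
    (∀ k < n, Comp B (update (s k) i (n - k - 1)) (s (k + 1))) →
    Comp (loop i B) (s 0) (s n) := by
  intro n
  induction n with
  | zero =>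
    intro s hs _ τ
    have h0 : s 0 i = 0 := by simpa using hs 0 le_rfl
    constructor
    · rintro ⟨ρ, h, h'⟩
      obtain ⟨h3, rfl⟩ := h'
      rcases Relation.ReflTransGen.cases_head h with h4 | ⟨c, ⟨d, hd, _⟩, _⟩
      · exact h4.symm
      · exact absurd h0 hd.1
    · intro h
      subst h
      exact ⟨s 0, Relation.ReflTransGen.refl, h0, rfl⟩
  | succ n ih =>
    intro s hs hB τ
    have h0 : s 0 i = n + 1 := by simpa using hs 0 (Nat.zero_le _)
    have key := ih (fun k => s (k + 1)) (fun k hk => by
      have := hs (k + 1) (by omega)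
      simp only [this]; omega) (fun k hk => by
      have := hB (k + 1) (by omega)
      have e : n + 1 - (k + 1) - 1 = n - k - 1 := by omega
      rw [e] at this
      exact this)
    have hB0 := hB 0 (by omega)
    have e0 : n + 1 - 0 - 1 = n := by omega
    rw [e0] at hB0
    constructor
    · rintro ⟨ρ, h, h'⟩
      rcases Relation.ReflTransGen.cases_head h with h4 | ⟨c, ⟨d, hd, hd'⟩, hc⟩
      · exfalso
        rw [← h4] at h'
        have := h'.1
        omega
      · obtain ⟨_, rfl⟩ := hd
        have e1 : s 0 i - 1 = n := by omega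
        rw [e1] at hd'
        rw [hB0 c] at hd'
        subst hd'
        exact (key τ).1 ⟨ρ, hc, h'⟩
    · intro h
      obtain ⟨ρ, h1, h2⟩ := (key τ).2 h
      refine ⟨ρ, Relation.ReflTransGen.head ⟨update (s 0) i (s 0 i - 1), ⟨by omega, rfl⟩, ?_⟩ h1, h2⟩
      have e1 : s 0 i - 1 = n := by omega
      rw [e1]
      exact (hB0 _).2 rfl

theorem Comp.congr {P : RProg} {σ σ' τ τ' : ℕ → ℕ} (h : Comp P σ σ') (h1 : τ = σ) (h2 : τ' = σ') :
    Comp P τ τ' := by subst h1; subst h2; exact h

/-- Clear a register. -/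
def clear (i : ℕ) : RProg := loop i .skip

theorem Comp.clear (i : ℕ) (σ : ℕ → ℕ) : Comp (clear i) σ (update σ i 0) := by
  have := Comp.loop i .skip (σ i) (fun k => update σ i (σ i - k)) (by simp) (by
    intro k _
    refine (Comp.skip _).congr rfl ?_
    simp [Nat.sub_sub])
  refine this.congr ?_ ?_ <;> simp

theorem exists_copy (i j t : ℕ) (hit : i ≠ t) (hjt : j ≠ t) :
    ∃ P, ∀ σ : ℕ → ℕ, σ t = 0 → Comp P σ (update σ j (σ i)) := by
  by_cases hij : i = j
  · subst hij
    exact ⟨.skip, fun σ _ => (Comp.skip _).congr rfl (by simp)⟩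
  refine ⟨.seq (clear j) (.seq (loop i (.seq (.inc j) (.inc t))) (loop t (.inc i))), ?_⟩
  intro σ ht
  refine (Comp.clear j σ).seq ?_
  have h1 := Comp.loop i (.seq (.inc j) (.inc t)) (σ i)
    (fun k => update (update (update σ j k) t k) i (σ i - k)) (by simp) (by
      intro k _
      refine ((Comp.inc j _).seq (Comp.inc t _)).congr rfl ?_
      funext x
      by_cases hxi : x = i
      · subst hxi
        simp [update_apply, hit, hij, Nat.sub_sub]
      · by_cases hxt : x = t
        · subst hxt
          simp [update_apply, hxi, Ne.symm hjt]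
        · by_cases hxj : x = j
          · subst hxj
            simp [update_apply, hxi, hxt]
          · simp [update_apply, hxi, hxt, hxj])
  refine Comp.seq (h1.congr ?_ rfl) ?_
  · funext x
    by_cases hxi : x = i
    · subst hxi
      simp [update_apply, hij]
    · by_cases hxt : x = t
      · subst hxt
        simp [update_apply, hxi, Ne.symm hjt, ht]
      · by_cases hxj : x = j
        · subst hxj
          simp [update_apply, hxi, hxt]
        · simp [update_apply, hxi, hxt, hxj]
  have h2 := Comp.loop t (.inc i) (σ i)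
    (fun k => update (update (update σ j (σ i)) i k) t (σ i - k)) (by simp) (by
      intro k _
      refine (Comp.inc i _).congr rfl ?_
      funext x
      by_cases hxi : x = i
      · subst hxi
        simp [update_apply, hit]
      · by_cases hxt : x = t
        · subst hxt
          simp [update_apply, hxi, Nat.sub_sub]
        · simp [update_apply, hxi, hxt])
  refine h2.congr ?_ ?_
  · funext x
    by_cases hxi : x = i
    · subst hxi
      simp [update_apply, hit]
    · by_cases hxt : x = t
      · subst hxt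
        simp [update_apply, hxi]
      · simp [update_apply, hxi, hxt]
  · funext x
    by_cases hxi : x = i
    · subst hxi
      simp [update_apply, hit, hij]
    · by_cases hxt : x = t
      · subst hxt
        simp [update_apply, Ne.symm hjt, ht]
      · simp [update_apply, hxi, hxt]

/-- `f` is computable by register programs, uniformly in the choice of registers. -/
def Cp {n : ℕ} (f : List.Vector ℕ n → ℕ) : Prop :=
  ∀ (args : Fin n → ℕ) (out m : ℕ), (∀ i, args i < m) → out < m →
    ∃ P, ∀ σ : ℕ → ℕ, (∀ j, m ≤ j → σ j = 0) →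
      Comp P σ (update σ out (f (List.Vector.ofFn (fun i => σ (args i)))))

theorem Cp.zero : @Cp 0 (fun _ => 0) := by
  intro args out m _ _
  exact ⟨clear out, fun σ _ => Comp.clear out σ⟩

theorem Cp.get {n : ℕ} (i : Fin n) : Cp (fun v : List.Vector ℕ n => v.get i) := by
  intro args out m h1 h2
  obtain ⟨P, hP⟩ := exists_copy (args i) out m (by have := h1 i; omega) (by omega)
  exact ⟨P, fun σ hσ => (hP σ (hσ m le_rfl)).congr rfl (by simp)⟩

theorem Cp.succ : @Cp 1 (fun v => Nat.succ v.head) := by
  intro args out m h1 h2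
  obtain ⟨P, hP⟩ := Cp.get (0 : Fin 1) args out m h1 h2
  refine ⟨.seq P (.inc out), fun σ hσ => ?_⟩
  refine ((hP σ hσ).seq (Comp.inc out _)).congr rfl ?_
  simp

theorem exists_clear (m : ℕ) (k : ℕ) : ∃ P, ∀ σ : ℕ → ℕ,
    Comp P σ (fun j => if m ≤ j ∧ j < m + k then 0 else σ j) := by
  induction k with
  | zero =>
    refine ⟨.skip, fun σ => (Comp.skip σ).congr rfl ?_⟩
    funext j
    have : ¬ (m ≤ j ∧ j < m + 0) := by omega
    simp [this]
  | succ k ih =>
    obtain ⟨P, hP⟩ := ih
    refine ⟨.seq P (clear (m + k)), fun σ => ((hP σ).seq (Comp.clear _ _)).congr rfl ?_⟩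
    funext j
    by_cases hj : j = m + k
    · subst hj
      simp
    · have : (m ≤ j ∧ j < m + (k + 1)) ↔ (m ≤ j ∧ j < m + k) := by omega
      simp [update_apply, hj, this]

theorem Cp.comp {m' n : ℕ} {f : List.Vector ℕ n → ℕ} (g : Fin n → List.Vector ℕ m' → ℕ)
    (hf : Cp f) (hg : ∀ i, Cp (g i)) : Cp (fun a => f (List.Vector.ofFn fun i => g i a)) := by
  intro args out m h1 h2
  -- step A
  have A : ∀ k, k ≤ n → ∃ P, ∀ σ : ℕ → ℕ, (∀ j, m ≤ j → σ j = 0) →
      Comp P σ (fun j => if h : m ≤ j ∧ j < m + k ∧ j - m < n then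
        g ⟨j - m, h.2.2⟩ (List.Vector.ofFn (fun i => σ (args i))) else σ j) := by
    intro k
    induction k with
    | zero =>
      intro _
      refine ⟨.skip, fun σ _ => (Comp.skip σ).congr rfl ?_⟩
      funext j
      have : ¬ (m ≤ j ∧ j < m + 0 ∧ j - m < n) := by omega
      simp only [this, dif_neg, not_false_eq_true]
    | succ k ih =>
      intro hk
      obtain ⟨P, hP⟩ := ih (by omega)
      obtain ⟨Q, hQ⟩ := hg ⟨k, by omega⟩ args (m + k) (m + n)
        (fun i => by have := h1 i; omega) (by omega)
      refine ⟨.seq P Q, fun σ hσ => ?_⟩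
      refine ((hP σ hσ).seq (hQ _ ?_)).congr rfl ?_
      · intro j hj
        have : ¬ (m ≤ j ∧ j < m + k ∧ j - m < n) := by omega
        simp only [this, dif_neg, not_false_eq_true]
        exact hσ j (by omega)
      · funext j
        by_cases hj : j = m + k
        · subst hj
          have e1 : (m ≤ m + k ∧ m + k < m + (k + 1) ∧ m + k - m < n) := by omega
          have e3 : (⟨m + k - m, e1.2.2⟩ : Fin n) = ⟨k, by omega⟩ := by ext; simp
          rw [update_self, dif_pos e1, e3]
          congr 2
          funext i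
          have hi := h1 i
          have e2 : ¬ (m ≤ args i ∧ args i < m + k ∧ args i - m < n) := by omega
          simp only [e2, dif_neg, not_false_eq_true]
        · rw [update_of_ne hj]
          by_cases hj2 : m ≤ j ∧ j < m + k ∧ j - m < n
          · have hj3 : m ≤ j ∧ j < m + (k + 1) ∧ j - m < n := by omega
            rw [dif_pos hj2, dif_pos hj3]
          · have hj3 : ¬ (m ≤ j ∧ j < m + (k + 1) ∧ j - m < n) := by omega
            rw [dif_neg hj2, dif_neg hj3]
  obtain ⟨P, hP⟩ := A n le_rfl
  obtain ⟨Q, hQ⟩ := hf (fun i => m + i) out (m + n) (fun i => by omega) (by omega)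
  obtain ⟨R, hR⟩ := exists_clear m n
  refine ⟨.seq P (.seq Q R), fun σ hσ => ?_⟩
  refine ((hP σ hσ).seq ((hQ _ ?_).seq (hR _))).congr rfl ?_
  · intro j hj
    have : ¬ (m ≤ j ∧ j < m + n ∧ j - m < n) := by omega
    simp only [this, dif_neg, not_false_eq_true]
    exact hσ j (by omega)
  · funext j
    by_cases hj : j = out
    · subst hj
      have e1 : ¬ (m ≤ j ∧ j < m + n) := by omega
      simp only [e1, if_neg, not_false_eq_true, update_self]
      congr 2
      funext i
      have hi := i.2
      have e2 : (m ≤ m + (i : ℕ) ∧ m + (i : ℕ) < m + n ∧ m + (i : ℕ) - m < n) := by omega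
      rw [dif_pos e2]
      congr 1
      ext
      simp
    · rw [update_of_ne hj]
      by_cases hj2 : m ≤ j ∧ j < m + n
      · rw [if_pos hj2]
        exact hσ j hj2.1
      · rw [if_neg hj2, update_of_ne hj]
        have e2 : ¬ (m ≤ j ∧ j < m + n ∧ j - m < n) := by omega
        rw [dif_neg e2]

theorem Cp.prec {n : ℕ} {f : List.Vector ℕ n → ℕ} {g : List.Vector ℕ (n + 2) → ℕ}
    (hf : Cp f) (hg : Cp g) :
    Cp (fun v : List.Vector ℕ (n + 1) =>
      v.head.rec (f v.tail) fun y IH => g (y ::ᵥ IH ::ᵥ v.tail)) := by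
  intro args out m h1 h2
  obtain ⟨P1, hP1⟩ := hf (fun i => args i.succ) (m + 2) (m + 3)
    (fun i => by have := h1 i.succ; omega) (by omega)
  obtain ⟨P2, hP2⟩ := exists_copy (args 0) m (m + 3) (by have := h1 0; omega) (by omega)
  obtain ⟨P3, hP3⟩ := hg (Fin.cons (m + 1) (Fin.cons (m + 2) (fun i => args i.succ)))
    (m + 2) (m + 3) (by
      intro i
      refine Fin.cases ?_ (fun i => ?_) i
      · simp
      · refine Fin.cases ?_ (fun i => ?_) i
        · simp
        · have := h1 i.succ
          simp only [Fin.cons_succ]; omega) (by omega)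
  obtain ⟨P5, hP5⟩ := exists_copy (m + 2) out (m + 3) (by omega) (by omega)
  refine ⟨.seq P1 (.seq P2 (.seq (loop m (.seq P3 (.inc (m + 1))))
    (.seq (clear (m + 1)) (.seq P5 (clear (m + 2)))))), fun σ hσ => ?_⟩
  have hm1 : m ≠ m + 1 := by omega
  have hm2 : m ≠ m + 2 := by omega
  have hm3 : m + 1 ≠ m + 2 := by omega
  set N := σ (args 0) with hN
  set tl : List.Vector ℕ n := List.Vector.ofFn (fun i => σ (args i.succ)) with htl
  let R : ℕ → ℕ := fun k => Nat.rec (f tl) (fun y IH => g (y ::ᵥ IH ::ᵥ tl)) k
  let s : ℕ → (ℕ → ℕ) := fun k => update (update (update σ (m + 2) (R k)) (m + 1) k) m (N - k)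
  have L : Comp (loop m (.seq P3 (.inc (m + 1)))) (s 0) (s N) := by
    refine Comp.loop m _ N s (by simp [s]) ?_
    intro k hk
    refine ((hP3 _ ?_).seq (Comp.inc _ _)).congr rfl ?_
    · intro j hj
      have e1 : j ≠ m := by omega
      have e2 : j ≠ m + 1 := by omega
      have e3 : j ≠ m + 2 := by omega
      simp only [s, update_apply, e1, e2, e3, if_false]
      exact hσ j (by omega)
    · have key : (List.Vector.ofFn (fun i : Fin (n + 2) =>
          (update (s k) m (N - k - 1)) ((Fin.cons (m + 1) (Fin.cons (m + 2)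
            (fun i => args i.succ)) : Fin (n + 2) → ℕ) i))) = k ::ᵥ R k ::ᵥ tl := by
        apply List.Vector.ext
        intro i
        refine Fin.cases ?_ (fun i => ?_) i
        · simp [s, update_apply]
        · refine Fin.cases ?_ (fun i => ?_) i
          · simp [s, update_apply]
            rfl
          · have hi := h1 i.succ
            have e1 : args i.succ ≠ m := by omega
            have e2 : args i.succ ≠ m + 1 := by omega
            have e3 : args i.succ ≠ m + 2 := by omega
            simp [s, update_apply, e1, e2, e3, htl]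
      rw [key]
      funext j
      by_cases e1 : j = m
      · subst e1
        simp [s, update_apply, Nat.sub_sub]
      · by_cases e2 : j = m + 1
        · subst e2
          simp [s, update_apply]
        · by_cases e3 : j = m + 2
          · subst e3
            simp [s, update_apply, R]
          · simp [s, update_apply, e1, e2, e3]
  refine ((hP1 σ (fun j hj => hσ j (by omega))).seq ((hP2 _ ?_).seq (Comp.seq (L.congr ?_ rfl)
    ((Comp.clear _ _).seq ((hP5 _ ?_).seq (Comp.clear _ _)))))).congr rfl ?_
  · have e : m + 3 ≠ m + 2 := by omega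
    rw [update_of_ne e]
    exact hσ _ (by omega)
  · funext j
    have h0 := h1 0
    have e4 : args 0 ≠ m + 2 := by omega
    by_cases e1 : j = m
    · subst e1
      simp [s, update_apply, e4, hN]
    · by_cases e2 : j = m + 1
      · subst e2
        simp [s, update_apply]
        exact hσ _ (by omega)
      · by_cases e3 : j = m + 2
        · subst e3
          simp [s, update_apply, R, htl]
        · simp [s, update_apply, e1, e2, e3]
  · have e1 : m + 3 ≠ m := by omega
    have e2 : m + 3 ≠ m + 1 := by omega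
    have e3 : m + 3 ≠ m + 2 := by omega
    simp only [s, update_apply, e1, e2, e3, if_false]
    exact hσ _ (by omega)
  · have key : (List.Vector.ofFn (fun i => σ (args i))) = N ::ᵥ tl := by
      apply List.Vector.ext
      intro i
      refine Fin.cases ?_ (fun i => ?_) i
      · simp [hN]
      · simp [htl]
    rw [key]
    funext j
    by_cases e0 : j = out
    · have e1 : j ≠ m := by omega
      have e2 : j ≠ m + 1 := by omega
      have e3 : j ≠ m + 2 := by omega
      subst e0
      simp [s, update_apply, e3, R]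
    · by_cases e1 : j = m
      · subst e1
        simp [s, update_apply, e0]
        exact hσ _ le_rfl
      · by_cases e2 : j = m + 1
        · subst e2
          simp [s, update_apply, e0]
          exact hσ _ (by omega)
        · by_cases e3 : j = m + 2
          · subst e3
            simp [s, update_apply, e0]
            exact hσ _ (by omega)
          · simp [s, update_apply, e0, e1, e2, e3]

theorem Cp.of_primrec' {n : ℕ} {f : List.Vector ℕ n → ℕ} (h : Nat.Primrec' f) : Cp f := by
  induction h with
  | zero => exact Cp.zero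
  | succ => exact Cp.succ
  | get i => exact Cp.get i
  | comp g _ _ hf hg => exact Cp.comp g hf hg
  | prec _ _ hf hg => exact Cp.prec hf hg

/-- A register program searching for a zero of a primitive recursive function. -/
theorem exists_search (f : ℕ → ℕ → ℕ) (hf : Primrec₂ f) :
    ∃ M : RProg, ∀ σ : ℕ → ℕ, (∀ j, 1 ≤ j → σ j = 0) →
      ((∃ τ, Sem M σ τ) ↔ ∃ k, f (σ 0) k = 0) := by
  have h1 : Nat.Primrec' (fun v : List.Vector ℕ 2 => f v.head v.tail.head) :=
    Nat.Primrec'.prim_iff₂.2 hf
  obtain ⟨P, hP⟩ := Cp.of_primrec' h1 (fun i => (i : ℕ)) 2 3 (fun i => by omega) (by omega)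
  have hP' : ∀ σ : ℕ → ℕ, (∀ j, 3 ≤ j → σ j = 0) → Comp P σ (update σ 2 (f (σ 0) (σ 1))) := by
    intro σ hσ
    refine (hP σ hσ).congr rfl ?_
    rfl
  refine ⟨.seq (.star (.seq P (.seq (.dec 2) (.inc 1)))) (.seq P (.zt 2)), ?_⟩
  intro σ hσ
  constructor
  · rintro ⟨τ, ρ, hρ, ρ', hρ', hz⟩
    have inv : ρ 0 = σ 0 ∧ ∀ j, 3 ≤ j → ρ j = 0 := by
      clear hρ' hz
      induction hρ with
      | refl => exact ⟨rfl, fun j hj => hσ j (by omega)⟩
      | tail _ h2 ih =>
        obtain ⟨a, ha, b, hb, hc⟩ := h2
        rw [(hP' _ ih.2) a] at ha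
        subst ha
        obtain ⟨_, rfl⟩ := hb
        rw [(Comp.inc 1 _) _] at hc
        subst hc
        constructor
        · simp [update_apply, ih.1]
        · intro j hj
          have e1 : j ≠ 1 := by omega
          have e2 : j ≠ 2 := by omega
          simp only [update_apply, e1, e2, if_false]
          exact ih.2 j hj
    rw [(hP' _ inv.2) ρ'] at hρ'
    subst hρ'
    have h3 := hz.1
    simp only [update_self] at h3
    rw [inv.1] at h3
    exact ⟨_, h3⟩
  · intro h
    classical
    let k := Nat.find h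
    have hk : f (σ 0) k = 0 := Nat.find_spec h
    have hk' : ∀ j < k, f (σ 0) j ≠ 0 := fun j hj => Nat.find_min h hj
    have step : ∀ j ≤ k, ∃ ρ : ℕ → ℕ, Relation.ReflTransGen
        (Sem (.seq P (.seq (.dec 2) (.inc 1)))) σ ρ ∧ ρ 0 = σ 0 ∧ ρ 1 = j ∧
          ∀ i, 3 ≤ i → ρ i = 0 := by
      intro j
      induction j with
      | zero =>
        intro _
        exact ⟨σ, .refl, rfl, hσ 1 le_rfl, fun i hi => hσ i (by omega)⟩
      | succ j ih =>
        intro hj
        obtain ⟨ρ, h1, h2, h3, h4⟩ := ih (by omega)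
        refine ⟨_, h1.tail ⟨_, (hP' ρ h4 _).2 rfl, _, ⟨?_, rfl⟩, rfl⟩, ?_, ?_, ?_⟩
        · simp only [update_self]
          rw [h2, h3]
          exact hk' j (by omega)
        · simp [update_apply, h2]
        · simp [update_apply, h3]
        · intro i hi
          have e1 : i ≠ 1 := by omega
          have e2 : i ≠ 2 := by omega
          simp only [update_apply, e1, e2, if_false]
          exact h4 i hi
    obtain ⟨ρ, h1, h2, h3, h4⟩ := step k le_rfl
    refine ⟨_, ρ, h1, _, (hP' ρ h4 _).2 rfl, ?_, rfl⟩
    simp only [update_self]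
    rw [h2, h3]
    exact hk

end Pool.Agent.CFMC
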