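import Mathlib

namespace Pool.Agent.CFMC

/-- The subshift `X_τ` generated by a substitution `τ : S → S*`: all two-sided sequences every
finite subword of which is a subword of `τ^m(a)` for some `m ≥ 0` and some letter `a`
(`τ` acts on words by concatenation, i.e. as `List.flatMap`). -/
def subshift {S : Type*} (τ : S → List S) : Set (ℤ → S) :=
  {x | ∀ (i : ℤ) (n : ℕ), ∃ (m : ℕ) (a : S),
    (List.ofFn fun j : Fin n => x (i + (j : ℤ))) <:+: (fun w : List S => w.flatMap τ)^[m] [a]}

/-- The language `B(X)` of a set `X` of two-sided sequences: all finite words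
`x_i x_{i+1} ⋯ x_{i+n-1}` with `x ∈ X`. -/
def lang {S : Type*} (X : Set (ℤ → S)) : Set (List S) :=
  {w | ∃ x ∈ X, ∃ (i : ℤ) (n : ℕ), w = List.ofFn fun j : Fin n => x (i + (j : ℤ))}

/-- Finite descriptions of context-free grammars with terminal alphabet `Fin k` and nonterminals
named by natural numbers: the initial nonterminal and the finite list of the rules
`A → α`, where `α` is a word in nonterminals (`Sum.inl`) and terminals (`Sum.inr`). -/
abbrev GrammarCode (k : ℕ) : Type := ℕ × List (ℕ × List (ℕ ⊕ Fin k))

/-- The context-free grammar described by a grammar code. -/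
def GrammarCode.toCFG {k : ℕ} (G : GrammarCode k) : ContextFreeGrammar (Fin k) where
  NT := ℕ
  initial := G.1
  rules := (G.2.map fun r =>
    (⟨r.1, r.2.map (Sum.elim Symbol.nonterminal Symbol.terminal)⟩ :
      ContextFreeRule (Fin k) ℕ)).toFinset

end Pool.Agent.CFMC
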