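import Pool.Agent.CFMC.Point

set_option linter.unusedSimpArgs false

namespace Pool.Agent.CFMC

/-! ### A generic soundness principle for context-free grammars -/

/-- Semantics of sentential forms under an assignment of languages to nonterminals. -/
def LL {N Tm : Type} (L : N → Set (List Tm)) : List (Symbol Tm N) → Set (List Tm)
  | [] => {[]}
  | Symbol.nonterminal A :: α => {w | ∃ w1 ∈ L A, ∃ w2 ∈ LL L α, w = w1 ++ w2}
  | Symbol.terminal x :: α => {w | ∃ w2 ∈ LL L α, w = x :: w2}

theorem mem_LL_append {N Tm : Type} (L : N → Set (List Tm)) (α β : List (Symbol Tm N))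
    (w : List Tm) : w ∈ LL L (α ++ β) ↔ ∃ w1 ∈ LL L α, ∃ w2 ∈ LL L β, w = w1 ++ w2 := by
  induction α generalizing w with
  | nil => simp [LL]
  | cons s α ih =>
    cases s with
    | terminal x =>
      simp only [List.cons_append, LL, Set.mem_ofPred_eq, ih]
      constructor
      · rintro ⟨w2, ⟨a, ha, b, hb, rfl⟩, rfl⟩
        exact ⟨x :: a, ⟨a, ha, rfl⟩, b, hb, rfl⟩
      · rintro ⟨_, ⟨a, ha, rfl⟩, b, hb, rfl⟩
        exact ⟨a ++ b, ⟨a, ha, b, hb, rfl⟩, rfl⟩
    | nonterminal A =>
      simp only [List.cons_append, LL, Set.mem_ofPred_eq, ih]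
      constructor
      · rintro ⟨w1, h1, w2, ⟨a, ha, b, hb, rfl⟩, rfl⟩
        exact ⟨w1 ++ a, ⟨w1, h1, a, ha, rfl⟩, b, hb, by simp⟩
      · rintro ⟨_, ⟨w1, h1, a, ha, rfl⟩, b, hb, rfl⟩
        exact ⟨w1, h1, a ++ b, ⟨a, ha, b, hb, rfl⟩, by simp⟩

theorem LL_sound {Tm : Type} (g : ContextFreeGrammar Tm) (L : g.NT → Set (List Tm))
    (h : ∀ r ∈ g.rules, LL L r.output ⊆ L r.input) {w : List Tm} (hw : w ∈ g.language) :
    w ∈ L g.initial := by
  have h1 : ∀ u v, g.Produces u v → LL L v ⊆ LL L u := by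
    rintro u v ⟨r, hr, hrw⟩ w hw
    obtain ⟨p, q, rfl, rfl⟩ := hrw.exists_parts
    rw [mem_LL_append] at hw
    obtain ⟨w1, hw1, w2, hw2, rfl⟩ := hw
    rw [mem_LL_append] at hw1
    obtain ⟨w3, hw3, w4, hw4, rfl⟩ := hw1
    rw [mem_LL_append]
    refine ⟨w3 ++ w4, ?_, w2, hw2, rfl⟩
    rw [mem_LL_append]
    refine ⟨w3, hw3, w4, ?_, rfl⟩
    exact ⟨w4, h r hr hw4, [], rfl, by simp⟩
  have h2 : ∀ u v, g.Derives u v → LL L v ⊆ LL L u := by
    intro u v huv
    induction huv with
    | refl => exact le_rfl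
    | tail _ h3 ih => exact (h1 _ _ h3).trans ih
  have h3 : w ∈ LL L (w.map Symbol.terminal) := by
    clear hw
    induction w with
    | nil => exact rfl
    | cons x w ih => exact ⟨w, ih, rfl⟩
  obtain ⟨w1, hw1, w2, hw2, h4⟩ := h2 _ _ ((ContextFreeGrammar.mem_language_iff g w).1 hw) h3
  obtain rfl : w2 = [] := hw2
  rw [List.append_nil] at h4
  rw [h4]
  exact hw1

/-! ### The grammars -/

deriving instance Encodable for Prog

/-- Nonterminals. -/
inductive Nt : Type
  | S : Nt
  | T : Nt
  | D : Nt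
  | Z : Nt
  | P (p : Prog) : Nt
deriving Encodable

/-- Symbols. -/
abbrev Sy : Type := Nt ⊕ Fin 5

/-- Rules. -/
abbrev Ru : Type := Nt × List Sy

/-- `n`-fold repetition of a word of symbols. -/
def rep (α : List Sy) : ℕ → List Sy
  | 0 => []
  | n + 1 => α ++ rep α n

/-- Basic rules. -/
def base : List Ru := [
  (.T, [.inr 2, .inl .Z, .inl .T]), (.T, [.inr 1, .inl .Z]),
  (.D, []), (.D, [.inr 0, .inl .D]), (.D, [.inr 1, .inl .D]), (.D, [.inr 2, .inl .D]),
  (.D, [.inr 3, .inl .D, .inr 4, .inl .D]),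
  (.Z, []), (.Z, [.inr 3, .inl .D, .inr 4, .inl .Z])]

/-- Rules of a program. -/
def rulesP : Prog → List Ru
  | .skip => [(.P .skip, [])]
  | .step q r d e => [
      (.P (.step q r d e), rep [.inr 2, .inl .Z] q ++ [.inl (.P (.step q r d e))] ++
        rep [.inl .T] d),
      (.P (.step q r d e), rep [.inr 2, .inl .Z] r ++ [.inr 1, .inl .Z] ++ rep [.inl .T] e)]
  | .seq P Q => (.P (.seq P Q), [.inl (.P P), .inl (.P Q)]) :: (rulesP P ++ rulesP Q)
  | .alt P Q => (.P (.alt P Q), [.inl (.P P)]) :: (.P (.alt P Q), [.inl (.P Q)]) ::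
      (rulesP P ++ rulesP Q)
  | .star P => (.P (.star P), []) :: (.P (.star P), [.inl (.P P), .inl (.P (.star P))]) ::
      rulesP P

/-- Program multiplying the clock by `3`. -/
noncomputable def I0 : Prog := tr (.inc 0)

/-- The start rule. -/
noncomputable def startWord (M : Prog) (n : ℕ) : List Sy :=
  [.inr 0, .inl .Z, .inr 1, .inl .Z, .inr 1, .inl .Z] ++ List.replicate n (.inl (.P I0)) ++
    [.inl (.P M)]

/-- All rules. -/
noncomputable def rulesN (M : Prog) (n : ℕ) : List Ru :=
  (.S, startWord M n) :: (base ++ (rulesP I0 ++ rulesP M))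

/-- Encoding of nonterminals. -/
noncomputable def enc : Nt → ℕ := Encodable.encode

theorem enc_inj {A B : Nt} : enc A = enc B ↔ A = B := Encodable.encode_inj

/-- The grammar code. -/
noncomputable def code (M : Prog) (n : ℕ) : GrammarCode 5 :=
  (enc .S, (rulesN M n).map fun r => (enc r.1, r.2.map (Sum.map enc id)))

/-- Symbols of the coded grammar. -/
noncomputable def sy : Sy → Symbol (Fin 5) ℕ
  | .inl A => .nonterminal (enc A)
  | .inr x => .terminal x

theorem toCFG_rules_mem {k : ℕ} (G : GrammarCode k) (r : ContextFreeRule (Fin k) ℕ) :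
    r ∈ G.toCFG.rules ↔ ∃ s ∈ G.2, (⟨s.1, s.2.map (Sum.elim Symbol.nonterminal
      Symbol.terminal)⟩ : ContextFreeRule (Fin k) ℕ) = r := by
  unfold GrammarCode.toCFG
  rw [List.mem_toFinset, List.mem_map]

theorem mem_rules (M : Prog) (n : ℕ) (r : ContextFreeRule (Fin 5) ℕ) :
    r ∈ (code M n).toCFG.rules ↔ ∃ s ∈ rulesN M n, r = ⟨enc s.1, s.2.map sy⟩ := by
  have e : ∀ α : List Sy, (α.map (Sum.map enc id)).map
      (Sum.elim Symbol.nonterminal Symbol.terminal) = α.map sy := by
    intro α
    rw [List.map_map]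
    congr 1
    funext s
    cases s <;> rfl
  rw [toCFG_rules_mem]
  unfold code
  generalize rulesN M n = R
  constructor
  · rintro ⟨s, hs, rfl⟩
    obtain ⟨s', hs', rfl⟩ := List.mem_map.1 hs
    exact ⟨s', hs', by rw [← e]⟩
  · rintro ⟨s, hs, rfl⟩
    exact ⟨_, List.mem_map.2 ⟨s, hs, rfl⟩, by rw [← e]⟩

@[simp] theorem scan_nil (d : ℕ) : scan d [] = [] := by cases d <;> rfl
@[simp] theorem scan_zero_a (w : List (Fin 5)) : scan 0 (0 :: w) = 0 :: scan 0 w := rfl
@[simp] theorem scan_zero_b (w : List (Fin 5)) : scan 0 (1 :: w) = 1 :: scan 0 w := rfl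
@[simp] theorem scan_zero_c (w : List (Fin 5)) : scan 0 (2 :: w) = 2 :: scan 0 w := rfl
@[simp] theorem scan_succ_a (d : ℕ) (w : List (Fin 5)) :
    scan (d + 1) (0 :: w) = scan (d + 1) w := rfl
@[simp] theorem scan_succ_b (d : ℕ) (w : List (Fin 5)) :
    scan (d + 1) (1 :: w) = scan (d + 1) w := rfl
@[simp] theorem scan_succ_c (d : ℕ) (w : List (Fin 5)) :
    scan (d + 1) (2 :: w) = scan (d + 1) w := rfl
@[simp] theorem scan_l (d : ℕ) (w : List (Fin 5)) : scan d (3 :: w) = scan (d + 1) w := rfl
@[simp] theorem scan_r (d : ℕ) (w : List (Fin 5)) : scan (d + 1) (4 :: w) = scan d w := rfl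

/-! ### Soundness -/

/-- `n`-fold multiplication by `3` followed by `M`. -/
noncomputable def pw (M : Prog) : ℕ → Prog
  | 0 => M
  | n + 1 => .seq I0 (pw M n)

/-- Language assignment. -/
def LN (M : Prog) (n : ℕ) : Nt → Set (List (Fin 5))
  | .S => {w | w.head? = some 0 ∧ ∃ js, Der (pw M n) js ∧
      ∀ rest, scan 0 (w ++ rest) = [0, 1, 1] ++ word js ++ scan 0 rest}
  | .T => {w | ∃ j, ∀ rest, scan 0 (w ++ rest) = word [j] ++ scan 0 rest}
  | .D => {w | ∀ d rest, scan (d + 1) (w ++ rest) = scan (d + 1) rest}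
  | .Z => {w | ∀ d rest, scan d (w ++ rest) = scan d rest}
  | .P p => {w | ∃ js, Der p js ∧ ∀ rest, scan 0 (w ++ rest) = word js ++ scan 0 rest}

/-- Semantics of words of symbols. -/
def LS (L : Nt → Set (List (Fin 5))) : List Sy → Set (List (Fin 5))
  | [] => {[]}
  | .inl A :: α => {w | ∃ w1 ∈ L A, ∃ w2 ∈ LS L α, w = w1 ++ w2}
  | .inr x :: α => {w | ∃ w2 ∈ LS L α, w = x :: w2}

theorem mem_LS_append (L : Nt → Set (List (Fin 5))) (α β : List Sy)
    (w : List (Fin 5)) : w ∈ LS L (α ++ β) ↔ ∃ w1 ∈ LS L α, ∃ w2 ∈ LS L β, w = w1 ++ w2 := by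
  induction α generalizing w with
  | nil => simp [LS]
  | cons s α ih =>
    cases s with
    | inr x =>
      simp only [List.cons_append, LS, Set.mem_ofPred_eq, ih]
      constructor
      · rintro ⟨w2, ⟨a, ha, b, hb, rfl⟩, rfl⟩
        exact ⟨x :: a, ⟨a, ha, rfl⟩, b, hb, rfl⟩
      · rintro ⟨_, ⟨a, ha, rfl⟩, b, hb, rfl⟩
        exact ⟨a ++ b, ⟨a, ha, b, hb, rfl⟩, rfl⟩
    | inl A =>
      simp only [List.cons_append, LS, Set.mem_ofPred_eq, ih]
      constructor
      · rintro ⟨w1, h1, w2, ⟨a, ha, b, hb, rfl⟩, rfl⟩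
        exact ⟨w1 ++ a, ⟨w1, h1, a, ha, rfl⟩, b, hb, by simp⟩
      · rintro ⟨_, ⟨w1, h1, a, ha, rfl⟩, b, hb, rfl⟩
        exact ⟨w1, h1, a ++ b, ⟨a, ha, b, hb, rfl⟩, by simp⟩

theorem mem_LL_sy (L : Nt → Set (List (Fin 5))) (α : List Sy) (w : List (Fin 5)) :
    w ∈ LL (fun k : ℕ => {w | ∃ A, enc A = k ∧ w ∈ L A}) (α.map sy) ↔ w ∈ LS L α := by
  induction α generalizing w with
  | nil => rfl
  | cons s α ih =>
    cases s with
    | inr x => simp only [List.map_cons, sy, LL, LS, Set.mem_ofPred_eq, ih]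
    | inl A =>
      simp only [List.map_cons, sy, LL, LS, Set.mem_ofPred_eq, ih, enc_inj]
      simp

section sound
variable (M : Prog) (n : ℕ)

theorem scan_Z {w : List (Fin 5)} (h : w ∈ LN M n .Z) (d : ℕ) (rest : List (Fin 5)) :
    scan d (w ++ rest) = scan d rest := h d rest

theorem scan_D {w : List (Fin 5)} (h : w ∈ LN M n .D) (d : ℕ) (rest : List (Fin 5)) :
    scan (d + 1) (w ++ rest) = scan (d + 1) rest := h d rest

theorem LS_repc (q : ℕ) {w : List (Fin 5)} (h : w ∈ LS (LN M n) (rep [.inr 2, .inl .Z] q)) :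
    ∀ rest, scan 0 (w ++ rest) = List.replicate q 2 ++ scan 0 rest := by
  induction q generalizing w with
  | zero =>
    intro rest
    obtain rfl : w = [] := h
    rfl
  | succ q ih =>
    intro rest
    simp only [rep, List.cons_append, List.nil_append, LS, Set.mem_ofPred_eq] at h
    obtain ⟨_, ⟨w1, hw1, w2, hw2, rfl⟩, rfl⟩ := h
    simp only [List.cons_append, List.append_assoc, scan_zero_c]
    rw [scan_Z M n hw1, ih hw2]
    simp [List.replicate_succ]

theorem LS_repT (d : ℕ) {w : List (Fin 5)} (h : w ∈ LS (LN M n) (rep [.inl .T] d)) :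
    ∃ js : List ℕ, js.length = d ∧ ∀ rest, scan 0 (w ++ rest) = word js ++ scan 0 rest := by
  induction d generalizing w with
  | zero =>
    obtain rfl : w = [] := h
    exact ⟨[], rfl, fun _ => rfl⟩
  | succ d ih =>
    simp only [rep, List.cons_append, List.nil_append, LS, Set.mem_ofPred_eq] at h
    obtain ⟨w1, ⟨j, hj⟩, w2, hw2, rfl⟩ := h
    obtain ⟨js, h1, h2⟩ := ih hw2
    refine ⟨j :: js, by simp [h1], fun rest => ?_⟩
    rw [List.append_assoc, hj, h2]
    simp

theorem LS_single {L : Nt → Set (List (Fin 5))} {A : Nt} {w : List (Fin 5)} :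
    w ∈ LS L [.inl A] ↔ w ∈ L A := by
  simp only [LS, Set.mem_ofPred_eq, Set.mem_singleton_iff]
  constructor
  · rintro ⟨w1, h1, w2, rfl, rfl⟩
    simpa using h1
  · intro h
    exact ⟨w, h, [], rfl, by simp⟩

theorem LS_start {w : List (Fin 5)} (h : w ∈ LS (LN M n) (startWord M n)) : w ∈ LN M n .S := by
  rw [startWord, List.append_assoc, mem_LS_append] at h
  obtain ⟨w1, hw1, w2, hw2, rfl⟩ := h
  simp only [LS, Set.mem_ofPred_eq, Set.mem_singleton_iff] at hw1
  obtain ⟨_, ⟨z1, hz1, _, ⟨_, ⟨z2, hz2, _, ⟨_, ⟨z3, hz3, _, rfl, rfl⟩, rfl⟩, rfl⟩, rfl⟩, rfl⟩, rfl⟩ :=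
    hw1
  have key : ∀ (k : ℕ) (w : List (Fin 5)),
      w ∈ LS (LN M n) (List.replicate k (.inl (.P I0)) ++ [.inl (.P M)]) →
      ∃ js, Der (pw M k) js ∧ ∀ rest, scan 0 (w ++ rest) = word js ++ scan 0 rest := by
    intro k
    induction k with
    | zero =>
      intro w hw
      rw [List.replicate_zero, List.nil_append, LS_single] at hw
      exact hw
    | succ k ih =>
      intro w hw
      rw [List.replicate_succ, List.cons_append] at hw
      obtain ⟨w1, ⟨js1, hd1, hw1⟩, w2, hw2, rfl⟩ := hw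
      obtain ⟨js2, hd2, hw2⟩ := ih _ hw2
      refine ⟨js1 ++ js2, .seq hd1 hd2, fun rest => ?_⟩
      rw [List.append_assoc, hw1, hw2]
      simp
  obtain ⟨js, hd, hjs⟩ := key n w2 hw2
  refine ⟨by simp, js, hd, fun rest => ?_⟩
  simp only [List.cons_append, List.append_assoc, List.nil_append, List.append_nil, scan_zero_a]
  rw [scan_Z M n hz1, scan_zero_b, scan_Z M n hz2, scan_zero_b, scan_Z M n hz3, hjs]

theorem rulesP_sound (p : Prog) : ∀ s ∈ rulesP p, LS (LN M n) s.2 ⊆ LN M n s.1 := by
  induction p with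
  | skip =>
    intro s hs w hw
    simp only [rulesP, List.mem_singleton] at hs
    subst hs
    obtain rfl : w = [] := hw
    exact ⟨[], .skip, fun _ => rfl⟩
  | step q r d e =>
    intro s hs w hw
    simp only [rulesP, List.mem_cons, List.not_mem_nil, or_false] at hs
    rcases hs with rfl | rfl
    · simp only [List.append_assoc] at hw
      rw [mem_LS_append] at hw
      obtain ⟨w1, hw1, w', hw', rfl⟩ := hw
      rw [mem_LS_append] at hw'
      obtain ⟨w2, hw2, w3, hw3, rfl⟩ := hw'
      rw [LS_single] at hw2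
      obtain ⟨js, hd, hjs⟩ := hw2
      obtain ⟨js', h1, h2⟩ := LS_repT M n d hw3
      cases hd with
      | step _ _ _ _ k js hk =>
        refine ⟨(q * (k + 1) + r) :: (js ++ js'), .step _ _ _ _ (k + 1) _ ?_, fun rest => ?_⟩
        · rw [List.length_append, hk, h1]; ring
        · rw [List.append_assoc, LS_repc M n q hw1, List.append_assoc, hjs, h2]
          have e : q * (k + 1) + r = q + (q * k + r) := by ring
          rw [e]
          simp only [word_cons, word_append, List.replicate_add, List.append_assoc]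
    · simp only [List.append_assoc] at hw
      rw [mem_LS_append] at hw
      obtain ⟨w1, hw1, w', hw', rfl⟩ := hw
      rw [mem_LS_append] at hw'
      obtain ⟨w2, hw2, w3, hw3, rfl⟩ := hw'
      simp only [LS, Set.mem_ofPred_eq, Set.mem_singleton_iff] at hw2
      obtain ⟨_, ⟨z, hz, _, rfl, rfl⟩, rfl⟩ := hw2
      obtain ⟨js', h1, h2⟩ := LS_repT M n e hw3
      refine ⟨(q * 0 + r) :: js', .step _ _ _ _ 0 _ (by omega), fun rest => ?_⟩
      rw [List.append_assoc, LS_repc M n r hw1]
      simp only [List.cons_append, List.append_assoc, List.nil_append, scan_zero_b]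
      rw [scan_Z M n hz, h2]
      simp
  | seq P Q ihP ihQ =>
    intro s hs w hw
    simp only [rulesP, List.mem_cons, List.mem_append] at hs
    rcases hs with rfl | hs | hs
    · obtain ⟨w1, ⟨js1, hd1, h1⟩, w2, hw2, rfl⟩ := hw
      rw [LS_single] at hw2
      obtain ⟨js2, hd2, h2⟩ := hw2
      refine ⟨js1 ++ js2, .seq hd1 hd2, fun rest => ?_⟩
      rw [List.append_assoc, h1, h2]
      simp
    · exact ihP s hs hw
    · exact ihQ s hs hw
  | alt P Q ihP ihQ =>
    intro s hs w hw
    simp only [rulesP, List.mem_cons, List.mem_append] at hs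
    rcases hs with rfl | rfl | hs | hs
    · rw [LS_single] at hw
      obtain ⟨js, hd, h⟩ := hw
      exact ⟨js, .altl hd, h⟩
    · rw [LS_single] at hw
      obtain ⟨js, hd, h⟩ := hw
      exact ⟨js, .altr hd, h⟩
    · exact ihP s hs hw
    · exact ihQ s hs hw
  | star P ih =>
    intro s hs w hw
    simp only [rulesP, List.mem_cons] at hs
    rcases hs with rfl | rfl | hs
    · obtain rfl : w = [] := hw
      exact ⟨[], .star_nil, fun _ => rfl⟩
    · obtain ⟨w1, ⟨js1, hd1, h1⟩, w2, hw2, rfl⟩ := hw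
      rw [LS_single] at hw2
      obtain ⟨js2, hd2, h2⟩ := hw2
      refine ⟨js1 ++ js2, .star_cons hd1 hd2, fun rest => ?_⟩
      rw [List.append_assoc, h1, h2]
      simp
    · exact ih s hs hw

theorem base_sound : ∀ s ∈ base, LS (LN M n) s.2 ⊆ LN M n s.1 := by
  intro s hs w hw
  simp only [base, List.mem_cons, List.not_mem_nil, or_false] at hs
  rcases hs with rfl | rfl | rfl | rfl | rfl | rfl | rfl | rfl | rfl
  · obtain ⟨_, ⟨z, hz, _, ⟨w1, ⟨j, hj⟩, _, rfl, rfl⟩, rfl⟩, rfl⟩ := hw
    refine ⟨j + 1, fun rest => ?_⟩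
    simp only [List.cons_append, List.append_assoc, List.nil_append, scan_zero_c]
    rw [scan_Z M n hz, hj]
    simp [List.replicate_succ]
  · obtain ⟨_, ⟨z, hz, _, rfl, rfl⟩, rfl⟩ := hw
    refine ⟨0, fun rest => ?_⟩
    simp only [List.cons_append, List.append_assoc, List.nil_append, scan_zero_b]
    rw [scan_Z M n hz]
    simp
  · obtain rfl : w = [] := hw
    intro d rest
    rfl
  · obtain ⟨_, ⟨w1, hw1, _, rfl, rfl⟩, rfl⟩ := hw
    intro d rest
    simp only [List.cons_append, List.append_assoc, List.nil_append, scan_succ_a]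
    exact scan_D M n hw1 d rest
  · obtain ⟨_, ⟨w1, hw1, _, rfl, rfl⟩, rfl⟩ := hw
    intro d rest
    simp only [List.cons_append, List.append_assoc, List.nil_append, scan_succ_b]
    exact scan_D M n hw1 d rest
  · obtain ⟨_, ⟨w1, hw1, _, rfl, rfl⟩, rfl⟩ := hw
    intro d rest
    simp only [List.cons_append, List.append_assoc, List.nil_append, scan_succ_c]
    exact scan_D M n hw1 d rest
  · obtain ⟨_, ⟨u, hu, _, ⟨_, ⟨v, hv, _, rfl, rfl⟩, rfl⟩, rfl⟩, rfl⟩ := hw
    intro d rest
    simp only [List.cons_append, List.append_assoc, List.nil_append, scan_l]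
    rw [scan_D M n hu, scan_r]
    exact scan_D M n hv d rest
  · obtain rfl : w = [] := hw
    intro d rest
    rfl
  · obtain ⟨_, ⟨u, hu, _, ⟨_, ⟨v, hv, _, rfl, rfl⟩, rfl⟩, rfl⟩, rfl⟩ := hw
    intro d rest
    simp only [List.cons_append, List.append_assoc, List.nil_append, scan_l]
    rw [scan_D M n hu, scan_r]
    exact scan_Z M n hv d rest

theorem language_sound {w : List (Fin 5)} (hw : w ∈ (code M n).toCFG.language) :
    w ∈ LN M n .S := by
  have h := LL_sound (code M n).toCFG (fun k : ℕ => {w | ∃ A, enc A = k ∧ w ∈ LN M n A}) (by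
    intro r hr w hw
    obtain ⟨s, hs, rfl⟩ := (mem_rules M n r).1 hr
    refine ⟨s.1, rfl, ?_⟩
    have h1 : w ∈ LS (LN M n) s.2 := (mem_LL_sy _ _ _).1 hw
    simp only [rulesN, List.mem_cons, List.mem_append] at hs
    rcases hs with rfl | hs | hs | hs
    · exact LS_start M n h1
    · exact base_sound M n s hs h1
    · exact rulesP_sound M n I0 s hs h1
    · exact rulesP_sound M n M s hs h1) hw
  obtain ⟨A, hA, h⟩ := h
  obtain rfl : A = .S := enc_inj.1 hA
  exact h

end sound


/-! ### Completeness -/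

section complete
variable (M : Prog) (n : ℕ)

/-- Symbols of a word of symbols. -/
noncomputable def syL (α : List Sy) : List (Symbol (Fin 5) ℕ) := α.map sy

/-- Symbols of a word. -/
def teL (w : List (Fin 5)) : List (Symbol (Fin 5) ℕ) := w.map Symbol.terminal

theorem syL_append (α β : List Sy) : syL (α ++ β) = syL α ++ syL β := List.map_append
theorem teL_append (v w : List (Fin 5)) : teL (v ++ w) = teL v ++ teL w := List.map_append

/-- The coded grammar derives the word `w` from `α`. -/
def DD (α : List Sy) (w : List (Fin 5)) : Prop :=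
  (code M n).toCFG.Derives (syL α) (teL w)

variable {M n}

theorem DD.nil : DD M n [] [] := ContextFreeGrammar.Derives.refl _

theorem DD.append {α β : List Sy} {v w : List (Fin 5)} (h1 : DD M n α v) (h2 : DD M n β w) :
    DD M n (α ++ β) (v ++ w) := by
  unfold DD at *
  rw [syL_append, teL_append]
  exact (ContextFreeGrammar.Derives.append_right h1 _).trans
    (ContextFreeGrammar.Derives.append_left h2 _)

theorem DD.term (x : Fin 5) : DD M n [.inr x] [x] := ContextFreeGrammar.Derives.refl _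

theorem DD.rule {A : Nt} {α : List Sy} {w : List (Fin 5)} (h : (A, α) ∈ rulesN M n)
    (h1 : DD M n α w) : DD M n [.inl A] w := by
  unfold DD at *
  refine ContextFreeGrammar.Produces.trans_derives ?_ h1
  refine ⟨⟨enc A, α.map sy⟩, (mem_rules M n _).2 ⟨(A, α), h, rfl⟩, ?_⟩
  have := ContextFreeRule.Rewrites.input_output (r := (⟨enc A, α.map sy⟩ :
    ContextFreeRule (Fin 5) ℕ))
  exact this

theorem base_sub {s : Ru} (h : s ∈ base) : s ∈ rulesN M n :=
  List.mem_cons_of_mem _ (List.mem_append_left _ h)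

theorem DD_balD {w : List (Fin 5)} (h : BalD w) : DD M n [.inl .D] w := by
  induction h with
  | nil => exact DD.rule (base_sub (by simp [base])) DD.nil
  | letter x w hx _ ih =>
    refine DD.rule (α := [.inr x, .inl .D]) (base_sub ?_) ((DD.term x).append ih)
    have hx' : x = 0 ∨ x = 1 ∨ x = 2 := by revert hx; revert x; decide
    rcases hx' with rfl | rfl | rfl <;> simp [base]
  | br u v _ _ ihu ihv =>
    refine DD.rule (α := [.inr 3, .inl .D, .inr 4, .inl .D]) (base_sub (by simp [base])) ?_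
    exact ((DD.term 3).append ihu).append ((DD.term 4).append ihv)

theorem DD_balZ {w : List (Fin 5)} (h : BalZ w) : DD M n [.inl .Z] w := by
  induction h with
  | nil => exact DD.rule (base_sub (by simp [base])) DD.nil
  | br u v hu _ ihv =>
    refine DD.rule (α := [.inr 3, .inl .D, .inr 4, .inl .Z]) (base_sub (by simp [base])) ?_
    exact ((DD.term 3).append (DD_balD hu)).append ((DD.term 4).append ihv)

theorem DD_letter {x : Fin 5} {w : List (Fin 5)} (h : Emb [x] w) : DD M n [.inr x, .inl .Z] w := by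
  cases h with
  | cons _ z _ w hx hz h =>
    cases h
    rw [List.append_nil]
    exact (DD.term x).append (DD_balZ hz)

theorem DD_repc {q : ℕ} {w : List (Fin 5)} (h : Emb (List.replicate q 2) w) :
    DD M n (rep [.inr 2, .inl .Z] q) w := by
  induction q generalizing w with
  | zero =>
    cases h
    exact DD.nil
  | succ q ih =>
    rw [List.replicate_succ] at h
    obtain ⟨w1, w2, rfl, h1, h2⟩ := Emb.split (v := [2]) h
    exact (DD_letter h1).append (ih h2)

theorem DD_T {j : ℕ} {w : List (Fin 5)} (h : Emb (word [j]) w) : DD M n [.inl .T] w := by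
  induction j generalizing w with
  | zero =>
    exact DD.rule (α := [.inr 1, .inl .Z]) (base_sub (by simp [base])) (DD_letter h)
  | succ j ih =>
    have h' : Emb ([2] ++ word [j]) w := by
      simpa [List.replicate_succ] using h
    obtain ⟨w1, w2, rfl, h1, h2⟩ := h'.split
    exact DD.rule (α := [.inr 2, .inl .Z, .inl .T]) (base_sub (by simp [base]))
      ((DD_letter h1).append (ih h2))

theorem DD_repT {js : List ℕ} {w : List (Fin 5)} (h : Emb (word js) w) :
    DD M n (rep [.inl .T] js.length) w := by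
  induction js generalizing w with
  | nil =>
    cases h
    exact DD.nil
  | cons j js ih =>
    have h' : Emb (word [j] ++ word js) w := by simpa using h
    obtain ⟨w1, w2, rfl, h1, h2⟩ := h'.split
    exact (DD_T h1).append (ih h2)

theorem DD_prog {p : Prog} {js : List ℕ} (hd : Der p js) : (∀ s ∈ rulesP p, s ∈ rulesN M n) →
    ∀ {w : List (Fin 5)}, Emb (word js) w → DD M n [.inl (.P p)] w := by
  induction hd with
  | skip =>
    intro hR w h
    cases h
    exact DD.rule (hR _ (by simp [rulesP])) DD.nil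
  | step q r d e k js hk =>
    intro hR w h
    induction k generalizing js w with
    | zero =>
      have h' : Emb (List.replicate r 2 ++ ([1] ++ word js)) w := by simpa using h
      obtain ⟨w1, w', rfl, h1, h2⟩ := h'.split
      obtain ⟨w2, w3, rfl, h2, h3⟩ := h2.split
      refine DD.rule (α := rep [.inr 2, .inl .Z] r ++ [.inr 1, .inl .Z] ++ rep [.inl .T] e)
        (hR _ (by simp [rulesP])) ?_
      rw [List.append_assoc]
      refine (DD_repc h1).append ((DD_letter h2).append ?_)
      have : e = js.length := by omega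
      rw [this]
      exact DD_repT h3
    | succ k ih =>
      have hk' : js.length = (d * k + e) + d := by rw [hk]; ring
      obtain ⟨js1, js2, rfl, hl1, hl2⟩ : ∃ js1 js2, js = js1 ++ js2 ∧ js1.length = d * k + e ∧
          js2.length = d :=
        ⟨js.take (d * k + e), js.drop (d * k + e), (List.take_append_drop _ _).symm,
          by simp [hk'], by simp [hk']⟩
      have e1 : word ((q * (k + 1) + r) :: (js1 ++ js2)) =
          List.replicate q 2 ++ (word ((q * k + r) :: js1) ++ word js2) := by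
        have e : q * (k + 1) + r = q + (q * k + r) := by ring
        rw [e]
        simp only [word_cons, word_append, List.replicate_add, List.append_assoc]
      rw [e1] at h
      obtain ⟨w1, w', rfl, h1, h2⟩ := h.split
      obtain ⟨w2, w3, rfl, h2, h3⟩ := h2.split
      refine DD.rule (α := rep [.inr 2, .inl .Z] q ++ [.inl (.P (.step q r d e))] ++
        rep [.inl .T] d) (hR _ (by simp [rulesP])) ?_
      rw [List.append_assoc]
      refine (DD_repc h1).append ((ih js1 hl1 h2).append ?_)
      have h4 := DD_repT (M := M) (n := n) h3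
      rw [hl2] at h4
      exact h4
  | @seq P Q js js' _ _ ihP ihQ =>
    intro hR w h
    rw [word_append] at h
    obtain ⟨w1, w2, rfl, h1, h2⟩ := h.split
    refine DD.rule (α := [.inl (.P P), .inl (.P Q)]) (hR _ (by simp [rulesP])) ?_
    exact (ihP (fun s hs => hR s (by simp [rulesP, hs])) h1).append
      (ihQ (fun s hs => hR s (by simp [rulesP, hs])) h2)
  | @altl P Q js _ ih =>
    intro hR w h
    exact DD.rule (α := [.inl (.P P)]) (hR _ (by simp [rulesP]))
      (ih (fun s hs => hR s (by simp [rulesP, hs])) h)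
  | @altr P Q js _ ih =>
    intro hR w h
    exact DD.rule (α := [.inl (.P Q)]) (hR _ (by simp [rulesP]))
      (ih (fun s hs => hR s (by simp [rulesP, hs])) h)
  | star_nil =>
    intro hR w h
    cases h
    exact DD.rule (hR _ (by simp [rulesP])) DD.nil
  | @star_cons P js js' _ _ ihP ihQ =>
    intro hR w h
    rw [word_append] at h
    obtain ⟨w1, w2, rfl, h1, h2⟩ := h.split
    refine DD.rule (α := [.inl (.P P), .inl (.P (.star P))]) (hR _ (by simp [rulesP])) ?_
    exact (ihP (fun s hs => hR s (by simp [rulesP, hs])) h1).append (ihQ hR h2)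

theorem DD_start {js : List ℕ} (hd : Der (pw M n) js) {w : List (Fin 5)}
    (h : Emb ([0, 1, 1] ++ word js) w) : w ∈ (code M n).toCFG.language := by
  change DD M n [.inl .S] w
  refine DD.rule (α := startWord M n) (List.mem_cons_self ..) ?_
  obtain ⟨w1, w2, rfl, h1, h2⟩ := h.split
  obtain ⟨w3, w4, rfl, h3, h4⟩ := Emb.split (v := [0]) h1
  obtain ⟨w5, w6, rfl, h5, h6⟩ := Emb.split (v := [1]) h4
  have key : ∀ (k : ℕ) (js : List ℕ) (w : List (Fin 5)), Der (pw M k) js → Emb (word js) w →
      DD M n (List.replicate k (.inl (.P I0)) ++ [.inl (.P M)]) w := by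
    intro k
    induction k with
    | zero =>
      intro js w hd h
      have hd' : Der M js := hd
      exact DD_prog hd' (fun s hs => by simp [rulesN, hs]) h
    | succ k ih =>
      intro js w hd h
      cases hd with
      | seq hd1 hd2 =>
        rw [word_append] at h
        obtain ⟨w1, w2, rfl, h1, h2⟩ := h.split
        rw [List.replicate_succ, List.cons_append]
        exact (DD_prog hd1 (fun s hs => by simp [rulesN, hs]) h1).append (ih _ _ hd2 h2)
  have h7 := (((DD_letter (M := M) (n := n) h3).append ((DD_letter h5).append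
    (DD_letter h6)))).append (key n js w2 hd h2)
  unfold startWord
  rw [List.append_assoc]
  exact h7

end complete

theorem rel_pw (M : Prog) (n : ℕ) (v : ℕ) : ∀ u, u ≠ 0 →
    (Rel (pw M n) u v ↔ Rel M (pr 0 ^ n * u) v) := by
  induction n with
  | zero => intro u _; simp [pw]
  | succ n ih =>
    intro u hu
    have e : pr 0 ^ (n + 1) * u = pr 0 ^ n * (pr 0 * u) := by ring
    rw [e, ← ih _ (mul_ne_zero (pr_prime 0).ne_zero hu)]
    constructor
    · rintro ⟨w, h1, h2⟩
      obtain ⟨_, rfl⟩ := (rel_inc 0 u w).1 h1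
      exact h2
    · intro h
      exact ⟨_, (rel_inc 0 u _).2 ⟨hu, rfl⟩, h⟩

/-- The reduction. -/
theorem reduction (M : Prog) (n : ℕ) :
    (∃ w ∈ (code M n).toCFG.language, w ∈ lang (subshift tau)) ↔ ∃ v, Rel M (pr 0 ^ n) v := by
  constructor
  · rintro ⟨w, hw, hw'⟩
    obtain ⟨h0, js, hd, hjs⟩ := language_sound M n hw
    obtain ⟨k, s, p, q, hpq⟩ := infix_of_mem_lang hw'
    have h1 : w ++ q <:+ T^[k] [s] := ⟨p, by rw [← List.append_assoc]; exact hpq⟩
    have h2 : (w ++ q).head? = some 0 := by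
      cases w with
      | nil => simp at h0
      | cons x w => simpa using h0
    have h3 := key_sound h1 h2 (hjs q)
    have h4 := hd.sound 1 h3
    rw [rel_pw _ _ _ _ one_ne_zero, mul_one] at h4
    exact ⟨_, h4⟩
  · rintro ⟨v, hv⟩
    rw [← mul_one (pr 0 ^ n), ← rel_pw _ _ _ _ one_ne_zero] at hv
    obtain ⟨m, _, hd⟩ := Der.complete _ _ _ hv
    obtain ⟨w, hw, hw'⟩ := key_complete m
    exact ⟨w, DD_start hd hw, hw'⟩

theorem code_computable (M : Prog) : Computable (code M) := by
  let hd : List (ℕ ⊕ Fin 5) := ([.inr 0, .inl .Z, .inr 1, .inl .Z, .inr 1, .inl .Z] :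
    List Sy).map (Sum.map enc id)
  let i0 : ℕ ⊕ Fin 5 := Sum.map enc id (.inl (.P I0) : Sy)
  let tl : List (ℕ ⊕ Fin 5) := ([.inl (.P M)] : List Sy).map (Sum.map enc id)
  let R : List (ℕ × List (ℕ ⊕ Fin 5)) := (base ++ (rulesP I0 ++ rulesP M)).map
    fun r => (enc r.1, r.2.map (Sum.map enc id))
  have e : code M = fun n => ((enc .S, (enc .S, hd ++ (List.range n).map (fun _ => i0) ++ tl) :: R) :
      GrammarCode 5) := by
    funext n
    simp only [code, rulesN, startWord, List.map_cons, List.map_append, hd, i0, tl, R,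
      List.map_replicate, List.map_const', List.length_range]
  rw [e]
  apply Primrec.to_comp
  refine Primrec.pair (Primrec.const _) (Primrec.list_cons.comp (Primrec.pair (Primrec.const _)
    (Primrec.list_append.comp (Primrec.list_append.comp (Primrec.const _) ?_)
      (Primrec.const _))) (Primrec.const _))
  exact Primrec.list_map Primrec.list_range (Primrec.const i0).to₂

/-- Main theorem, concrete form. -/
theorem main : ¬ ComputablePred (fun G : GrammarCode 5 =>
    ∃ w ∈ G.toCFG.language, w ∈ lang (subshift tau)) := by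
  intro h
  let f : ℕ → ℕ → ℕ := fun n k =>
    if (Nat.Partrec.Code.evaln k (Denumerable.ofNat Nat.Partrec.Code n) 0).isSome then 0 else 1
  have hf : Primrec₂ f := by
    refine Primrec.ite (c := fun x : ℕ × ℕ => (Nat.Partrec.Code.evaln x.2
      (Denumerable.ofNat Nat.Partrec.Code x.1) 0).isSome = true) ?_ (Primrec.const 0)
        (Primrec.const 1)
    have h1 : Primrec (fun x : ℕ × ℕ => (Nat.Partrec.Code.evaln x.2
      (Denumerable.ofNat Nat.Partrec.Code x.1) 0).isSome) := by
      refine Primrec.option_isSome.comp (Nat.Partrec.Code.primrec_evaln.comp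
        (Primrec.pair (Primrec.pair Primrec.snd ((Primrec.ofNat Nat.Partrec.Code).comp
          Primrec.fst)) (Primrec.const 0)))
    exact Primrec.primrecPred (h1.of_eq fun x => by simp)
  obtain ⟨M, hM⟩ := exists_prog f hf
  apply ComputablePred.halting_problem 0
  refine ComputablePred.computable_of_manyOneReducible (q := fun G : GrammarCode 5 =>
    ∃ w ∈ G.toCFG.language, w ∈ lang (subshift tau)) ?_ h
  refine ⟨fun c => code M (Encodable.encode c), (code_computable M).comp Computable.encode, ?_⟩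
  intro c
  change (c.eval 0).Dom ↔ ∃ w ∈ (code M (Encodable.encode c)).toCFG.language,
    w ∈ lang (subshift tau)
  rw [reduction, hM]
  simp only [f, Denumerable.ofNat_encode]
  rw [Part.dom_iff_mem]
  constructor
  · rintro ⟨x, hx⟩
    obtain ⟨k, hk⟩ := Nat.Partrec.Code.evaln_complete.1 hx
    refine ⟨k, ?_⟩
    rw [Option.mem_def.1 hk]
    simp
  · rintro ⟨k, hk⟩
    by_cases h1 : (Nat.Partrec.Code.evaln k c 0).isSome = true
    · obtain ⟨x, hx⟩ := Option.isSome_iff_exists.1 h1
      exact ⟨x, Nat.Partrec.Code.evaln_complete.2 ⟨k, hx⟩⟩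
    · simp [h1] at hk

end Pool.Agent.CFMC
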