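import Pool.Agent.CFMC.Subst

set_option linter.unusedSimpArgs false

namespace Pool.Agent.CFMC

theorem exists_limit {S : Type*} [Inhabited S] (f U V : ℕ → List S)
    (hU : ∀ j, U j ≠ []) (hV : ∀ j, V j ≠ []) (hf : ∀ j, f (j + 1) = U j ++ f j ++ V j) :
    ∃ x : ℤ → S, (∀ (i : ℤ) (n : ℕ), ∃ j, (List.ofFn fun t : Fin n => x (i + (t : ℤ))) <:+: f j) ∧
      ∀ k : ℕ, k < (f 0).length → (f 0)[k]? = some (x (k : ℤ)) := by
  obtain ⟨p, hp0, hp⟩ : ∃ p : ℕ → ℕ, p 0 = 0 ∧ ∀ j, p (j + 1) = p j + (U j).length :=
    ⟨fun j => Nat.rec 0 (fun j r => r + (U j).length) j, rfl, fun _ => rfl⟩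
  have hU' : ∀ j, 1 ≤ (U j).length := fun j => List.length_pos_iff.2 (hU j)
  have hV' : ∀ j, 1 ≤ (V j).length := fun j => List.length_pos_iff.2 (hV j)
  have hpj : ∀ j, j ≤ p j := by
    intro j
    induction j with
    | zero => simp
    | succ j ih => rw [hp]; have := hU' j; omega
  have hlen : ∀ j, p j + j ≤ (f j).length := by
    intro j
    induction j with
    | zero => simp [hp0]
    | succ j ih =>
      rw [hp, hf]
      have := hV' j
      simp only [List.length_append]
      omega
  have hA : ∀ j k, k < (f j).length → (f (j + 1))[k + (U j).length]? = (f j)[k]? := by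
    intro j k hk
    rw [hf, List.append_assoc, List.getElem?_append_right (by omega), Nat.add_sub_cancel,
      List.getElem?_append_left hk]
  let x : ℤ → S := fun i => ((f (i.natAbs + 1))[(i + (p (i.natAbs + 1) : ℤ)).toNat]?).getD default
  have hx : ∀ (i : ℤ) (j : ℕ), i.natAbs + 1 ≤ j → (f j)[(i + (p j : ℤ)).toNat]? = some (x i) := by
    intro i j hj
    induction j, hj using Nat.le_induction with
    | base =>
      have h1 := hpj (i.natAbs + 1)
      have h2 := hlen (i.natAbs + 1)
      have h3 : (i + p (i.natAbs + 1)).toNat < (f (i.natAbs + 1)).length := by omega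
      simp only [x]
      rw [List.getElem?_eq_getElem h3]
      rfl
    | succ j hj ih =>
      have h1 := hpj j
      have h2 := hlen j
      have h3 : (i + p j).toNat < (f j).length := by omega
      rw [← ih, ← hA j _ h3, hp]
      congr 1
      push_cast
      omega
  refine ⟨x, ?_, ?_⟩
  · intro i n
    refine ⟨i.natAbs + n + 1, ?_⟩
    set j := i.natAbs + n + 1 with hj
    have h1 := hpj j
    have h2 := hlen j
    have e : (List.ofFn fun t : Fin n => x (i + (t : ℤ))) =
        ((f j).drop (i + p j).toNat).take n := by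
      apply List.ext_getElem?
      intro t
      by_cases ht : t < n
      · rw [List.getElem?_take_of_lt ht, List.getElem?_drop]
        have h3 := hx (i + t) j (by omega)
        have e3 : (i + t + p j).toNat = (i + p j).toNat + t := by omega
        rw [e3] at h3
        rw [h3]
        simp [ht]
      · have e4 : n ≤ t := by omega
        rw [List.getElem?_eq_none (by simpa using e4),
          List.getElem?_eq_none (by simp; omega)]
    rw [e]
    exact (List.take_prefix _ _).isInfix.trans (List.drop_suffix _ _).isInfix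
  · intro k hk
    have h1 : ∀ j, (f j)[k + p j]? = (f 0)[k]? := by
      intro j
      induction j with
      | zero => rw [hp0, add_zero]
      | succ j ih =>
        have h3 : k + p j < (f j).length := by
          by_contra h
          rw [List.getElem?_eq_none (by omega), List.getElem?_eq_getElem hk] at ih
          exact absurd ih (by simp)
        rw [← ih, ← hA j _ h3, hp]
        congr 1
        omega
    rw [← h1 (k + 1)]
    have h4 := hx k (k + 1) (by simp)
    have e5 : ((k : ℤ) + p (k + 1)).toNat = k + p (k + 1) := by omega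
    rw [e5] at h4
    exact h4

theorem T_iterate_append (j : ℕ) : ∀ v w, T^[j] (v ++ w) = T^[j] v ++ T^[j] w := by
  induction j with
  | zero => intro v w; rfl
  | succ j ih => intro v w; simp only [Function.iterate_succ_apply, T_append, ih]

theorem T_ne_nil {w : List (Fin 5)} (h : w ≠ []) : T w ≠ [] := by
  cases w with
  | nil => exact absurd rfl h
  | cons x w =>
    rw [T_cons]
    have : tau x ≠ [] := by fin_cases x <;> simp
    simp [this]

theorem T_iterate_ne_nil (j : ℕ) {w : List (Fin 5)} (h : w ≠ []) : T^[j] w ≠ [] := by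
  induction j with
  | zero => exact h
  | succ j ih => rw [Function.iterate_succ_apply']; exact T_ne_nil ih

/-- Every prefix of `T^[n] [0]` is in the language of the subshift. -/
theorem mem_lang_of_prefix {n : ℕ} {w : List (Fin 5)} (h : w <+: T^[n] [0]) :
    w ∈ lang (subshift tau) := by
  obtain ⟨x, hx1, hx2⟩ := exists_limit (fun j => T^[n + j] [0]) (fun j => T^[n + j] [0, 1, 3])
    (fun j => T^[n + j] [1, 2, 4]) (fun j => T_iterate_ne_nil _ (by simp))
    (fun j => T_iterate_ne_nil _ (by simp)) (by
      intro j
      change T^[n + j + 1] [0] = _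
      rw [Function.iterate_succ_apply, ← T_iterate_append, ← T_iterate_append]
      rfl)
  refine ⟨x, ?_, 0, w.length, ?_⟩
  · intro i m
    obtain ⟨j, hj⟩ := hx1 i m
    exact ⟨n + j, 0, hj⟩
  · apply List.ext_getElem?
    intro t
    by_cases ht : t < w.length
    · have h1 : (T^[n] [0])[t]? = some (x t) := hx2 t (lt_of_lt_of_le ht h.length_le)
      have h2 : w[t]? = (T^[n] [0])[t]? := by
        rw [List.prefix_iff_eq_take.1 h, List.getElem?_take_of_lt ht]
      rw [h2, h1]
      simp [ht]
    · rw [List.getElem?_eq_none (by omega), List.getElem?_eq_none (by simp; omega)]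

/-- Conversely, every word of the language is a factor of some `T^[n] [s]`. -/
theorem infix_of_mem_lang {w : List (Fin 5)} (h : w ∈ lang (subshift tau)) :
    ∃ n s, w <:+: T^[n] [s] := by
  obtain ⟨x, hx, i, n, rfl⟩ := h
  obtain ⟨m, a, h⟩ := hx i n
  exact ⟨m, a, h⟩

/-! ### Balanced words -/

/-- Words derived from `D`. -/
inductive BalD : List (Fin 5) → Prop
  | nil : BalD []
  | letter (x : Fin 5) (w : List (Fin 5)) : x < 3 → BalD w → BalD (x :: w)
  | br (u v : List (Fin 5)) : BalD u → BalD v → BalD (3 :: u ++ 4 :: v)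

/-- Words derived from `Z`. -/
inductive BalZ : List (Fin 5) → Prop
  | nil : BalZ []
  | br (u v : List (Fin 5)) : BalD u → BalZ v → BalZ (3 :: u ++ 4 :: v)

theorem BalZ.balD {w : List (Fin 5)} (h : BalZ w) : BalD w := by
  induction h with
  | nil => exact .nil
  | br u v hu _ ih => exact .br u v hu ih

theorem BalZ.append {v w : List (Fin 5)} (hv : BalZ v) (hw : BalZ w) : BalZ (v ++ w) := by
  induction hv with
  | nil => exact hw
  | br u v hu _ ih =>
    have := BalZ.br u (v ++ w) hu ih
    simpa using this

theorem BalD.append {v w : List (Fin 5)} (hv : BalD v) (hw : BalD w) : BalD (v ++ w) := by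
  induction hv with
  | nil => exact hw
  | letter x v hx _ ih => exact .letter x _ hx ih
  | br u v hu _ _ ih =>
    have := BalD.br u (v ++ w) hu ih
    simpa using this

theorem balD_T {w : List (Fin 5)} (h : BalD w) : BalD (T w) := by
  have hy : BalD [3, 0, 1, 2, 4] :=
    .br [0, 1, 2] [] (.letter _ _ (by decide) (.letter _ _ (by decide)
      (.letter _ _ (by decide) .nil))) .nil
  induction h with
  | nil => exact .nil
  | letter x w hx _ ih =>
    rw [T_cons]
    refine BalD.append ?_ ih
    have hx' : x = 0 ∨ x = 1 ∨ x = 2 := by revert hx; revert x; decide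
    rcases hx' with rfl | rfl | rfl
    · exact .letter _ _ (by decide) (.letter _ _ (by decide) hy)
    · exact .letter _ _ (by decide) (.letter _ _ (by decide) hy)
    · exact .letter _ _ (by decide) hy
  | br u v _ _ ihu ihv =>
    have h1 : T (3 :: u ++ 4 :: v) =
        3 :: ([3, 0, 1, 2, 4] ++ T u) ++ 4 :: ([3, 0, 1, 2, 4] ++ T v) := by simp
    rw [h1]
    exact .br _ _ (hy.append ihu) (hy.append ihv)

theorem balZ_y : BalZ [3, 0, 1, 2, 4] :=
  .br [0, 1, 2] [] (.letter _ _ (by decide) (.letter _ _ (by decide)
    (.letter _ _ (by decide) .nil))) .nil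

theorem balZ_T {w : List (Fin 5)} (h : BalZ w) : BalZ (T w) := by
  induction h with
  | nil => exact .nil
  | br u v hu _ ihv =>
    have h1 : T (3 :: u ++ 4 :: v) =
        3 :: ([3, 0, 1, 2, 4] ++ T u) ++ 4 :: ([3, 0, 1, 2, 4] ++ T v) := by simp
    rw [h1]
    exact .br _ _ (balZ_y.balD.append (balD_T hu)) (balZ_y.append ihv)

/-- `Emb v w`: `w` is the visible word `v` with balanced words inserted after each letter. -/
inductive Emb : List (Fin 5) → List (Fin 5) → Prop
  | nil : Emb [] []
  | cons (x : Fin 5) (z v w : List (Fin 5)) : x < 3 → BalZ z → Emb v w → Emb (x :: v) (x :: (z ++ w))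

theorem Emb.append {v w v' w' : List (Fin 5)} (h : Emb v w) (h' : Emb v' w') :
    Emb (v ++ v') (w ++ w') := by
  induction h with
  | nil => exact h'
  | cons x z v w hx hz _ ih =>
    have := Emb.cons x z _ _ hx hz ih
    simpa using this

theorem Emb.split {v v' w : List (Fin 5)} (h : Emb (v ++ v') w) :
    ∃ w1 w2, w = w1 ++ w2 ∧ Emb v w1 ∧ Emb v' w2 := by
  induction v generalizing w with
  | nil => exact ⟨[], w, rfl, .nil, h⟩
  | cons x v ih =>
    rw [List.cons_append] at h
    cases h with
    | cons _ z _ w hx hz h =>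
      obtain ⟨w1, w2, rfl, h1, h2⟩ := ih h
      exact ⟨x :: (z ++ w1), w2, by simp, .cons _ _ _ _ hx hz h1, h2⟩

theorem Emb.map {v w : List (Fin 5)} (h : Emb v w) : Emb (T0 v) (T w) := by
  induction h with
  | nil => exact .nil
  | cons x z v w hx hz _ ih =>
    rw [T0_cons, T_cons, T_append, ← List.append_assoc]
    refine Emb.append ?_ ih
    have hx' : x = 0 ∨ x = 1 ∨ x = 2 := by revert hx; revert x; decide
    have hz' := balZ_y.append (balZ_T hz)
    rcases hx' with rfl | rfl | rfl
    · have := Emb.cons 0 [] _ _ (by decide) .nil (Emb.cons 1 _ _ _ (by decide) hz' .nil)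
      simpa using this
    · have := Emb.cons 1 [] _ _ (by decide) .nil (Emb.cons 2 _ _ _ (by decide) hz' .nil)
      simpa using this
    · have := Emb.cons 2 _ _ _ (by decide) hz' .nil
      simpa using this

theorem emb_iterate (n : ℕ) : Emb (T0^[n] [0]) (T^[n] [0]) := by
  induction n with
  | zero => exact Emb.cons 0 [] _ _ (by decide) .nil .nil
  | succ n ih =>
    rw [Function.iterate_succ_apply', Function.iterate_succ_apply']
    exact ih.map

/-- The key fact for completeness. -/
theorem key_complete (m : ℕ) : ∃ w, Emb ([0, 1, 1] ++ word (List.range' 1 m)) w ∧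
    w ∈ lang (subshift tau) := by
  have h := emb_iterate (m + 1 + 1)
  rw [omega_eq, word_range_succ] at h
  have e : [0, 1] ++ ([1] ++ word (List.range' 1 m)) ++ List.replicate (m + 1) 2 =
      ([0, 1, 1] ++ word (List.range' 1 m)) ++ List.replicate (m + 1) 2 := by simp
  rw [e] at h
  obtain ⟨w1, w2, h1, h2, _⟩ := h.split
  exact ⟨w1, h2, mem_lang_of_prefix (n := m + 1 + 1) ⟨w2, h1.symm⟩⟩

end Pool.Agent.CFMC
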