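import Pool.Agent.CFMC.Clock
import Pool.Agent.CFMC.Defs

set_option linter.unusedSimpArgs false

namespace Pool.Agent.CFMC

/-- The substitution. Letters: `0 = a`, `1 = b`, `2 = c`, `3 =` left bracket, `4 =` right
bracket. -/
def tau : Fin 5 → List (Fin 5) := ![
  [0, 1, 3, 0, 1, 2, 4],
  [1, 2, 3, 0, 1, 2, 4],
  [2, 3, 0, 1, 2, 4],
  [3, 3, 0, 1, 2, 4],
  [4, 3, 0, 1, 2, 4]]

/-- The visible part of the substitution. -/
def tau0 : Fin 5 → List (Fin 5) := ![[0, 1], [1, 2], [2], [], []]

/-- Action on words. -/
def T (w : List (Fin 5)) : List (Fin 5) := w.flatMap tau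

/-- Action of the visible part on words. -/
def T0 (w : List (Fin 5)) : List (Fin 5) := w.flatMap tau0

@[simp] theorem T_nil : T [] = [] := rfl
@[simp] theorem T0_nil : T0 [] = [] := rfl
@[simp] theorem T_cons (x : Fin 5) (w : List (Fin 5)) : T (x :: w) = tau x ++ T w := rfl
@[simp] theorem T0_cons (x : Fin 5) (w : List (Fin 5)) : T0 (x :: w) = tau0 x ++ T0 w := rfl
@[simp] theorem T_append (v w : List (Fin 5)) : T (v ++ w) = T v ++ T w := by simp [T]
@[simp] theorem T0_append (v w : List (Fin 5)) : T0 (v ++ w) = T0 v ++ T0 w := by simp [T0]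

@[simp] theorem tau_0 : tau 0 = [0, 1, 3, 0, 1, 2, 4] := rfl
@[simp] theorem tau_1 : tau 1 = [1, 2, 3, 0, 1, 2, 4] := rfl
@[simp] theorem tau_2 : tau 2 = [2, 3, 0, 1, 2, 4] := rfl
@[simp] theorem tau_3 : tau 3 = [3, 3, 0, 1, 2, 4] := rfl
@[simp] theorem tau_4 : tau 4 = [4, 3, 0, 1, 2, 4] := rfl
@[simp] theorem tau0_0 : tau0 0 = [0, 1] := rfl
@[simp] theorem tau0_1 : tau0 1 = [1, 2] := rfl
@[simp] theorem tau0_2 : tau0 2 = [2] := rfl

/-- Depth scanner. -/
def scan : ℕ → List (Fin 5) → List (Fin 5)
  | _, [] => []
  | d, x :: w =>
    if x = 3 then scan (d + 1) w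
    else if x = 4 then (if d = 0 then [] else scan (d - 1) w)
    else if d = 0 then x :: scan d w else scan d w

theorem scan_tau (w : List (Fin 5)) : ∀ d, scan d (T w) = T0 (scan d w) := by
  induction w with
  | nil => intro d; simp [scan]
  | cons x w ih =>
    intro d
    fin_cases x
    · by_cases hd : d = 0 <;> simp [scan, hd, ih]
    · by_cases hd : d = 0 <;> simp [scan, hd, ih]
    · by_cases hd : d = 0 <;> simp [scan, hd, ih]
    · simp [scan, ih]
    · by_cases hd : d = 0 <;> simp [scan, hd, ih]

theorem suffix_append_cases {S : Type*} {a b w : List S} (h : w <:+ a ++ b) :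
    w <:+ b ∨ ∃ t, t <:+ a ∧ t ≠ [] ∧ w = t ++ b := by
  obtain ⟨p, hp⟩ := h
  rcases List.append_eq_append_iff.1 hp with ⟨a', h1, h2⟩ | ⟨c', h1, h2⟩
  · by_cases ha : a' = []
    · subst ha
      left
      rw [h2]
      simp
    · right
      exact ⟨a', ⟨p, h1.symm⟩, ha, h2⟩
  · left
    exact ⟨c', h2.symm⟩

theorem suffix_T {v w : List (Fin 5)} (h : w <:+ T v) (hw : w ≠ []) :
    ∃ x v2 t, (x :: v2) <:+ v ∧ t <:+ tau x ∧ t ≠ [] ∧ w = t ++ T v2 := by
  induction v with
  | nil =>
    simp at h
    exact absurd h hw
  | cons x v ih =>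
    rw [T_cons] at h
    rcases suffix_append_cases h with h1 | ⟨t, h1, h2, h3⟩
    · obtain ⟨y, v2, t, h2, h3⟩ := ih h1
      exact ⟨y, v2, t, h2.trans (List.suffix_cons x v), h3⟩
    · exact ⟨x, v, t, List.suffix_rfl, h1, h2, h3⟩

theorem suffix_tau : ∀ x : Fin 5, ∀ t ∈ (tau x).tails, t.head? = some 0 →
    (x = 0 ∧ t = tau 0) ∨ t = [0, 1, 2, 4] := by
  decide

theorem scan_suffix (n : ℕ) (s : Fin 5) : ∀ w : List (Fin 5), w <:+ T^[n] [s] →
    w.head? = some 0 → ∃ j, scan 0 w = T0^[j] [0] ∨ scan 0 w = T0^[j] [0, 1, 2] := by
  induction n with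
  | zero =>
    intro w h1 h2
    rw [Function.iterate_zero, id] at h1
    rcases List.suffix_cons_iff.1 h1 with h3 | h3
    · subst h3
      simp at h2
      subst h2
      exact ⟨0, Or.inl (by simp [scan])⟩
    · simp at h3
      subst h3
      simp at h2
  | succ n ih =>
    intro w h1 h2
    rw [Function.iterate_succ_apply'] at h1
    obtain ⟨x, v2, t, h3, h4, h5, h6⟩ := suffix_T h1 (by rintro rfl; simp at h2)
    have h7 : t.head? = some 0 := by
      rw [h6] at h2
      cases t with
      | nil => exact absurd rfl h5
      | cons y t => simpa using h2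
    rcases suffix_tau x t ((List.mem_tails _ _).2 h4) h7 with ⟨rfl, h8⟩ | h8
    · obtain ⟨j, hj⟩ := ih (0 :: v2) h3 rfl
      have e : w = T (0 :: v2) := by rw [h6, h8]; rfl
      refine ⟨j + 1, ?_⟩
      rw [e, scan_tau, Function.iterate_succ_apply', Function.iterate_succ_apply']
      rcases hj with hj | hj
      · left; rw [hj]
      · right; rw [hj]
    · refine ⟨0, Or.inr ?_⟩
      rw [h6, h8]
      simp [scan]

/-- Visible word of blocks `c^j b`. -/
def word (js : List ℕ) : List (Fin 5) := js.flatMap (fun j => List.replicate j 2 ++ [1])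

@[simp] theorem word_nil : word [] = [] := rfl
@[simp] theorem word_cons (j : ℕ) (js : List ℕ) :
    word (j :: js) = List.replicate j 2 ++ [1] ++ word js := rfl
@[simp] theorem word_append (js ks : List ℕ) : word (js ++ ks) = word js ++ word ks := by
  simp [word]

@[simp] theorem T0_replicate (j : ℕ) : T0 (List.replicate j 2) = List.replicate j 2 := by
  induction j with
  | zero => rfl
  | succ j ih => rw [List.replicate_succ, T0_cons, ih]; rfl

theorem T0_word_range (j : ℕ) : [1, 2] ++ T0 (word (List.range j)) ++ List.replicate j 2 =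
    word (List.range (j + 1)) ++ List.replicate (j + 1) 2 := by
  induction j with
  | zero => simp
  | succ j ih =>
    rw [List.range_succ, word_append, T0_append]
    have e1 : T0 (word [j]) = List.replicate j 2 ++ [1, 2] := by simp
    rw [e1]
    have e2 : [1, 2] ++ (T0 (word (List.range j)) ++ (List.replicate j 2 ++ [1, 2])) ++
        List.replicate (j + 1) 2 = ([1, 2] ++ T0 (word (List.range j)) ++ List.replicate j 2) ++
        [1, 2] ++ List.replicate (j + 1) 2 := by simp only [List.append_assoc]
    rw [e2, ih, List.range_succ (n := j + 1), word_append]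
    have e3 : word [j + 1] = List.replicate (j + 1) 2 ++ [1] := by simp
    rw [e3, List.replicate_succ (n := j + 1)]
    simp only [List.append_assoc, List.cons_append, List.nil_append]

theorem omega_eq (j : ℕ) : T0^[j + 1] [0] =
    [0, 1] ++ word (List.range j) ++ List.replicate j 2 := by
  induction j with
  | zero => simp
  | succ j ih =>
    rw [Function.iterate_succ_apply', ih, T0_append, T0_append, T0_replicate]
    have e1 : T0 [0, 1] = [0, 1] ++ [1, 2] := rfl
    rw [e1, List.append_assoc, List.append_assoc, ← List.append_assoc [1, 2], T0_word_range,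
      List.append_assoc]

theorem word_range_succ (j : ℕ) : word (List.range (j + 1)) = [1] ++ word (List.range' 1 j) := by
  rw [List.range_eq_range', List.range'_succ]
  simp

theorem T0_iterate_append (j : ℕ) : ∀ v w, T0^[j] (v ++ w) = T0^[j] v ++ T0^[j] w := by
  induction j with
  | zero => intro v w; rfl
  | succ j ih => intro v w; simp only [Function.iterate_succ_apply, T0_append, ih]

theorem T0_iterate_two (j : ℕ) : T0^[j] [2] = [2] := by
  induction j with
  | zero => rfl
  | succ j ih => rw [Function.iterate_succ_apply']; rw [ih]; rfl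

theorem word_prefix_aux : ∀ (js ks : List ℕ) (n : ℕ) (s : List (Fin 5)),
    word js ++ s = word ks ++ List.replicate n 2 → js <+: ks := by
  intro js
  induction js with
  | nil => intro ks n s _; exact List.nil_prefix
  | cons j js ih =>
    intro ks n s h
    have aux : ∀ (i k : ℕ) (x y : List (Fin 5)),
        List.replicate i (2 : Fin 5) ++ 1 :: x = List.replicate k 2 ++ 1 :: y → i = k ∧ x = y := by
      intro i
      induction i with
      | zero =>
        intro k x y h
        cases k with
        | zero => simpa using h
        | succ k => simp [List.replicate_succ] at h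
      | succ i ihi =>
        intro k x y h
        cases k with
        | zero => simp [List.replicate_succ] at h
        | succ k =>
          simp only [List.replicate_succ, List.cons_append, List.cons.injEq, true_and] at h
          obtain ⟨h1, h2⟩ := ihi k x y h
          exact ⟨by omega, h2⟩
    cases ks with
    | nil =>
      exfalso
      have h1 : (1 : Fin 5) ∈ word [] ++ List.replicate n 2 := by
        rw [← h]; simp
      simp at h1
    | cons k ks =>
      simp only [word_cons, List.append_assoc, List.cons_append, List.nil_append] at h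
      obtain ⟨h1, h2⟩ := aux _ _ _ _ h
      subst h1
      exact (List.cons_prefix_cons).2 ⟨rfl, ih ks n s h2⟩

theorem range_prefix {js : List ℕ} {a m : ℕ} (h : js <+: List.range' a m) :
    js = List.range' a js.length := by
  have h1 := List.prefix_iff_eq_take.1 h
  have h2 : js.length ≤ m := by simpa using h.length_le
  obtain ⟨k, rfl⟩ := Nat.exists_eq_add_of_le h2
  rw [← List.range'_append_1, List.take_left' (by simp)] at h1
  exact h1

/-- The key fact: a factor of `T^[n] [s]` beginning with the letter `a` whose visible part begins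
with `abb` spells the consecutive block lengths `1, 2, 3, …`. -/
theorem key_sound {n : ℕ} {s : Fin 5} {w q : List (Fin 5)} {js : List ℕ} {s' : List (Fin 5)}
    (h : w ++ q <:+ T^[n] [s]) (hw : (w ++ q).head? = some 0)
    (hs : scan 0 (w ++ q) = [0, 1, 1] ++ word js ++ s') :
    js = List.range' 1 js.length := by
  obtain ⟨j, hj⟩ := scan_suffix n s _ h hw
  rw [hs] at hj
  -- every case has the form `abb` followed by blocks
  have main : ∀ (j : ℕ) (e : List (Fin 5)) (k : ℕ), e = List.replicate k 2 →
      [0, 1, 1] ++ word js ++ s' = T0^[j] [0] ++ e → js = List.range' 1 js.length := by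
    intro j e k he h
    cases j with
    | zero =>
      subst he
      cases k with
      | zero => simp at h
      | succ k => simp [List.replicate_succ] at h
    | succ j =>
      rw [omega_eq] at h
      cases j with
      | zero =>
        subst he
        cases k with
        | zero => simp at h
        | succ k => simp [List.replicate_succ] at h
      | succ j =>
        rw [word_range_succ, he] at h
        simp only [List.cons_append, List.nil_append, List.append_assoc, List.cons.injEq,
          true_and] at h
        have h2 := word_prefix_aux js (List.range' 1 j) (j + 1 + k) s' (by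
          rw [h]
          simp [List.replicate_append_replicate])
        exact range_prefix h2
  rcases hj with hj | hj
  · exact main j [] 0 rfl (by simpa using hj)
  · have e : ([0, 1, 2] : List (Fin 5)) = T0 [0] ++ [2] := rfl
    rw [e, T0_iterate_append, T0_iterate_two, ← Function.iterate_succ_apply] at hj
    exact main (j + 1) [2] 1 rfl hj

end Pool.Agent.CFMC
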